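import Mathlib
import Pool.Agent.W66.RA
import Pool.Agent.Helper601.Mertens
import Pool.Agent.Y122.PC.Sum

/-!
# Sums over pairs of primes
-/

set_option autoImplicit false

namespace Pool.Agent.Run7.h129.Mer

open Finset Filter Topology
open Pool.Agent.Helper112.E456.SieveAux (DD)

/-- the weight of a prime -/
noncomputable def wt (p : ℕ) : ℝ := Real.log p / p

lemma wt_nonneg (p : ℕ) : 0 ≤ wt p := div_nonneg (Real.log_natCast_nonneg p) (Nat.cast_nonneg p)

/-- the primes `p ≤ n` -/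
def PN (n : ℕ) : Finset ℕ := (range (n + 1)).filter Nat.Prime

lemma mem_PN {n p : ℕ} : p ∈ PN n ↔ p ≤ n ∧ p.Prime := by
  unfold PN
  rw [mem_filter, mem_range, Nat.lt_succ_iff]

lemma mertens_le : ∃ C : ℝ, 0 ≤ C ∧ ∀ n : ℕ, 1 ≤ n → ∑ p ∈ PN n, wt p ≤ Real.log n + C := by
  obtain ⟨C, hC⟩ := Pool.Agent.Helper601.Mertens.mertens_log
  refine ⟨C, (abs_nonneg _).trans (hC 1 le_rfl), fun n hn => ?_⟩
  have h := (abs_le.1 (hC n hn)).2
  have e : PN n = (Finset.Icc 1 n).filter Nat.Prime := by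
    ext p
    rw [mem_PN, mem_filter, mem_Icc]
    constructor
    · rintro ⟨h1, h2⟩
      exact ⟨⟨h2.one_lt.le, h1⟩, h2⟩
    · rintro ⟨⟨_, h1⟩, h2⟩
      exact ⟨h1, h2⟩
  rw [e]
  unfold wt
  linarith

/-- the dyadic sum over the primes `p` for which `p + h` is prime -/
noncomputable def bk (h k : ℕ) : ℝ :=
  ∑ p ∈ (Ioc (2 ^ k) (2 ^ (k + 1))).filter (fun p => p.Prime ∧ (p + h).Prime), wt p

lemma bk_nonneg (h k : ℕ) : 0 ≤ bk h k := sum_nonneg fun p _ => wt_nonneg p

lemma bk_tendsto {h : ℕ} (hh : 1 ≤ h) : Tendsto (bk h) atTop (𝓝 0) := by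
  obtain ⟨C0, hC0, hsv⟩ := Pool.Agent.W66.sift_two
  set M : ℕ := 2 * h with hM
  set R : ℝ := C0 * ((M : ℝ) / (Nat.totient M : ℝ)) ^ 2 with hR
  have hl2 : 0 < Real.log 2 := Real.log_pos one_lt_two
  have hlim : Tendsto (fun k : ℕ => (2 * R / Real.log 2) / ((k : ℝ) + 1)) atTop (𝓝 0) :=
    tendsto_const_nhds.div_atTop (tendsto_atTop_add_const_right _ _ tendsto_natCast_atTop_atTop)
  refine squeeze_zero' (Eventually.of_forall fun k => bk_nonneg h k) ?_ hlim
  filter_upwards [eventually_ge_atTop 1] with k hk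
  set N : ℕ := 2 ^ (k + 1) with hN
  have hN2 : 2 ≤ N := by
    calc 2 = 2 ^ 1 := rfl
      _ ≤ 2 ^ (k + 1) := Nat.pow_le_pow_right (by norm_num) (by omega)
  have hNr : (N : ℝ) = 2 ^ (k + 1) := by rw [hN]; push_cast; rfl
  have hlogN : Real.log N = (k + 1) * Real.log 2 := by
    rw [hNr, Real.log_pow]; push_cast; ring
  set S := (Ioc (2 ^ k) N).filter (fun p => p.Prime ∧ (p + h).Prime) with hS
  have hN8 : (N : ℝ) ^ ((1 : ℝ) / 8) ≤ 2 ^ k := by
    rw [hNr, ← Real.rpow_natCast, ← Real.rpow_natCast, ← Real.rpow_mul (by norm_num)]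
    refine Real.rpow_le_rpow_of_exponent_le (by norm_num) ?_
    push_cast
    have : (1 : ℝ) ≤ k := by exact_mod_cast hk
    linarith
  have hcard : (S.card : ℝ) ≤ R * N / (Real.log N) ^ 2 := by
    refine hsv 1 0 1 h N M one_pos one_pos (dvd_mul_right _ _) (by omega) ?_ hN2 S ?_ ?_
    · unfold DD
      have : (((1 * h : ℕ) : ℤ) - ((1 * 0 : ℕ) : ℤ)).natAbs = h := by
        push_cast; simp
      rw [this, one_mul, one_mul]
      exact dvd_mul_left _ _
    · intro p hp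
      rw [hS, mem_filter, mem_Ioc] at hp
      rw [mem_Icc]
      exact ⟨hp.2.1.one_lt.le, hp.1.2⟩
    · intro p hp l hl hlN _
      rw [hS, mem_filter, mem_Ioc] at hp
      have hlp : l < p := by
        have h1 : (l : ℝ) ≤ 2 ^ k := hlN.trans hN8
        have h2 : l ≤ 2 ^ k := by exact_mod_cast h1
        omega
      constructor
      · rw [one_mul, add_zero]
        intro hd
        rcases (Nat.dvd_prime hp.2.1).1 hd with h1 | h1
        · exact hl.one_lt.ne' h1
        · omega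
      · rw [one_mul]
        intro hd
        rcases (Nat.dvd_prime hp.2.2).1 hd with h1 | h1
        · exact hl.one_lt.ne' h1
        · omega
  have hterm : ∀ p ∈ S, wt p ≤ Real.log N / 2 ^ k := by
    intro p hp
    rw [hS, mem_filter, mem_Ioc] at hp
    have h1 : (2 : ℝ) ^ k ≤ p := by
      have : 2 ^ k ≤ p := hp.1.1.le
      exact_mod_cast this
    have h2 : (0 : ℝ) < 2 ^ k := by positivity
    unfold wt
    refine div_le_div₀ (by rw [hlogN]; positivity) ?_ h2 h1
    exact Real.log_le_log (by linarith) (by exact_mod_cast hp.1.2)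
  have h3 : bk h k ≤ S.card * (Real.log N / 2 ^ k) := by
    unfold bk
    rw [← nsmul_eq_mul]
    exact sum_le_card_nsmul _ _ _ hterm
  refine h3.trans ?_
  have h4 : 0 < Real.log N := by rw [hlogN]; positivity
  calc (S.card : ℝ) * (Real.log N / 2 ^ k) ≤ (R * N / (Real.log N) ^ 2) * (Real.log N / 2 ^ k) :=
        mul_le_mul_of_nonneg_right hcard (by positivity)
    _ = 2 * R / Real.log N := by
        rw [hNr, pow_succ]
        field_simp
    _ = (2 * R / Real.log 2) / ((k : ℝ) + 1) := by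
        rw [hlogN]
        field_simp

/-- the sum of the weights of the primes `p ≤ n` for which `p + h` is prime -/
noncomputable def Tw (h n : ℕ) : ℝ := ∑ p ∈ (PN n).filter (fun p => (p + h).Prime), wt p

lemma Tw_nonneg (h n : ℕ) : 0 ≤ Tw h n := sum_nonneg fun p _ => wt_nonneg p

lemma Tw_le_sum (h n : ℕ) : Tw h n ≤ ∑ k ∈ range (Nat.log 2 n + 1), bk h k := by
  have key : ∀ K : ℕ, ∑ k ∈ range K, bk h k =
      ∑ p ∈ (Ioc 1 (2 ^ K)).filter (fun p => p.Prime ∧ (p + h).Prime), wt p := by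
    intro K
    induction K with
    | zero => simp
    | succ K ih =>
      rw [sum_range_succ, ih]
      unfold bk
      rw [← sum_union]
      · congr 1
        ext p
        simp only [mem_union, mem_filter, mem_Ioc]
        have h1 : 2 ^ K ≤ 2 ^ (K + 1) := Nat.pow_le_pow_right (by norm_num) (by omega)
        have h2 : 1 ≤ 2 ^ K := Nat.one_le_two_pow
        constructor
        · rintro (⟨⟨h3, h4⟩, h5⟩ | ⟨⟨h3, h4⟩, h5⟩)
          · exact ⟨⟨h3, by omega⟩, h5⟩
          · exact ⟨⟨by omega, h4⟩, h5⟩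
        · rintro ⟨⟨h3, h4⟩, h5⟩
          rcases le_or_gt p (2 ^ K) with h6 | h6
          · exact Or.inl ⟨⟨h3, h6⟩, h5⟩
          · exact Or.inr ⟨⟨h6, h4⟩, h5⟩
      · rw [disjoint_left]
        intro p hp hq
        rw [mem_filter, mem_Ioc] at hp hq
        omega
  rw [key]
  unfold Tw
  refine sum_le_sum_of_subset_of_nonneg ?_ (fun p _ _ => wt_nonneg p)
  intro p hp
  rw [mem_filter, mem_PN] at hp
  rw [mem_filter, mem_Ioc]
  have h1 : n < 2 ^ (Nat.log 2 n + 1) := Nat.lt_pow_succ_log_self one_lt_two n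
  exact ⟨⟨hp.1.2.one_lt, by omega⟩, hp.1.2, hp.2⟩

lemma nat_log_le {n : ℕ} (hn : 1 ≤ n) : (Nat.log 2 n : ℝ) ≤ Real.log n / Real.log 2 := by
  rw [le_div_iff₀ (Real.log_pos one_lt_two)]
  have h1 : 2 ^ Nat.log 2 n ≤ n := Nat.pow_log_le_self 2 (by omega)
  have h2 : (2 : ℝ) ^ Nat.log 2 n ≤ n := by exact_mod_cast h1
  have h3 := Real.log_le_log (by positivity) h2
  rwa [Real.log_pow] at h3

lemma log_nat_atTop : Tendsto (fun n : ℕ => Real.log (n : ℝ)) atTop atTop :=
  Real.tendsto_log_atTop.comp tendsto_natCast_atTop_atTop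

/-- Twin primes at distance `h` have relative density zero, in the logarithmic form needed here. -/
lemma Tw_small {h : ℕ} (hh : 1 ≤ h) {ε : ℝ} (hε : 0 < ε) :
    ∀ᶠ n : ℕ in atTop, Tw h n ≤ ε * Real.log n := by
  have hl2 : 0 < Real.log 2 := Real.log_pos one_lt_two
  have h1 := (bk_tendsto hh).cesaro
  have h2 : Tendsto (fun n : ℕ => Nat.log 2 n + 1) atTop atTop := by
    refine tendsto_atTop.2 fun K => (eventually_ge_atTop (2 ^ K)).mono fun n hn => ?_
    have := Nat.le_log_of_pow_le one_lt_two hn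
    omega
  have h3 := (h1.comp h2).eventually (gt_mem_nhds (show (0 : ℝ) < ε * Real.log 2 / 2 by positivity))
  filter_upwards [h3, eventually_ge_atTop 2] with n hn hn2
  simp only [Function.comp] at hn
  have hn1 : (0 : ℝ) < ((Nat.log 2 n + 1 : ℕ) : ℝ) := by positivity
  have h4 : ∑ k ∈ range (Nat.log 2 n + 1), bk h k < ε * Real.log 2 / 2 * ((Nat.log 2 n + 1 : ℕ) : ℝ) := by
    rw [inv_mul_lt_iff₀ hn1] at hn
    linarith
  have h5 := nat_log_le (n := n) (by omega)
  have h6 : (1 : ℝ) ≤ Real.log n / Real.log 2 := by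
    rw [le_div_iff₀ hl2, one_mul]
    exact Real.log_le_log (by norm_num) (by exact_mod_cast hn2)
  have h7 : ((Nat.log 2 n + 1 : ℕ) : ℝ) ≤ 2 * (Real.log n / Real.log 2) := by
    push_cast; linarith
  calc Tw h n ≤ ∑ k ∈ range (Nat.log 2 n + 1), bk h k := Tw_le_sum h n
    _ ≤ ε * Real.log 2 / 2 * ((Nat.log 2 n + 1 : ℕ) : ℝ) := h4.le
    _ ≤ ε * Real.log 2 / 2 * (2 * (Real.log n / Real.log 2)) :=
        mul_le_mul_of_nonneg_left h7 (by positivity)
    _ = ε * Real.log n := by field_simp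

/-- the sum of `log p / p · 2 ^ (-h)` over the pairs of primes `p`, `p + h ≤ 2 p` -/
noncomputable def Rn (n : ℕ) : ℝ :=
  ∑ p ∈ PN n, ∑ h ∈ (Icc 1 p).filter (fun h => (p + h).Prime), ((2 : ℝ) ^ h)⁻¹ * wt p

lemma geom_tail (H p : ℕ) : ∑ h ∈ (Icc 1 p).filter (fun h => H < h), ((2 : ℝ) ^ h)⁻¹ ≤
    ((2 : ℝ) ^ H)⁻¹ := by
  have h1 : (Icc 1 p).filter (fun h => H < h) ⊆ Ico (H + 1) (H + 1 + p) := by
    intro h hh
    rw [mem_filter, mem_Icc] at hh
    rw [mem_Ico]
    omega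
  refine (sum_le_sum_of_subset_of_nonneg h1 (fun _ _ _ => by positivity)).trans ?_
  have h2 : ∀ p : ℕ, ∑ h ∈ Ico (H + 1) (H + 1 + p), ((2 : ℝ) ^ h)⁻¹ =
      ((2 : ℝ) ^ H)⁻¹ - ((2 : ℝ) ^ (H + p))⁻¹ := by
    intro p
    induction p with
    | zero => simp
    | succ p ih =>
      rw [← add_assoc, sum_Ico_succ_top (by omega), ih]
      have e1 : (2 : ℝ) ^ (H + 1 + p) = 2 * 2 ^ (H + p) := by rw [← pow_succ']; congr 1; ring
      have e2 : (2 : ℝ) ^ (H + (p + 1)) = 2 * 2 ^ (H + p) := by rw [← pow_succ']; congr 1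
      rw [e1, e2]
      have : (2 : ℝ) ^ (H + p) ≠ 0 := by positivity
      field_simp
      ring
  rw [h2]
  have : (0 : ℝ) < ((2 : ℝ) ^ (H + p))⁻¹ := by positivity
  linarith

lemma Rn_small {ε : ℝ} (hε : 0 < ε) : ∀ᶠ n : ℕ in atTop, Rn n ≤ ε * Real.log n := by
  obtain ⟨C, hC0, hC⟩ := mertens_le
  obtain ⟨H, hH⟩ := exists_pow_lt_of_lt_one (show (0 : ℝ) < ε / 4 by positivity)
    (show (1 / 2 : ℝ) < 1 by norm_num)
  have hH' : ((2 : ℝ) ^ H)⁻¹ < ε / 4 := by
    rw [one_div, inv_pow] at hH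
    exact hH
  have h1 : ∀ᶠ n : ℕ in atTop, ∀ h ∈ Icc 1 H, Tw h n ≤ (ε / 2 / (H + 1)) * Real.log n := by
    rw [Filter.eventually_all_finset]
    intro h hh
    rw [mem_Icc] at hh
    exact Tw_small hh.1 (by positivity)
  filter_upwards [h1, log_nat_atTop.eventually_ge_atTop (max C 1), eventually_ge_atTop 1]
    with n hn hlog hn1
  have hlog1 : C ≤ Real.log n := (le_max_left _ _).trans hlog
  have hlog2 : 1 ≤ Real.log n := (le_max_right _ _).trans hlog
  have h2 : Rn n ≤ ∑ p ∈ PN n, ((∑ h ∈ (Icc 1 H).filter (fun h => (p + h).Prime), wt p) +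
      ((2 : ℝ) ^ H)⁻¹ * wt p) := by
    unfold Rn
    refine sum_le_sum fun p _ => ?_
    have hw := wt_nonneg p
    have h3 : (Icc 1 p).filter (fun h => (p + h).Prime) ⊆
        (Icc 1 H).filter (fun h => (p + h).Prime) ∪ (Icc 1 p).filter (fun h => H < h) := by
      intro h hh
      rw [mem_filter, mem_Icc] at hh
      rw [mem_union, mem_filter, mem_filter, mem_Icc, mem_Icc]
      rcases le_or_gt h H with h4 | h4
      · exact Or.inl ⟨⟨hh.1.1, h4⟩, hh.2⟩
      · exact Or.inr ⟨hh.1, h4⟩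
    have h4 : ∑ h ∈ (Icc 1 p).filter (fun h => (p + h).Prime), ((2 : ℝ) ^ h)⁻¹ * wt p ≤
        (∑ h ∈ (Icc 1 H).filter (fun h => (p + h).Prime), ((2 : ℝ) ^ h)⁻¹ * wt p) +
        ∑ h ∈ (Icc 1 p).filter (fun h => H < h), ((2 : ℝ) ^ h)⁻¹ * wt p := by
      refine (sum_le_sum_of_subset_of_nonneg h3 (fun _ _ _ => by positivity)).trans ?_
      rw [← sum_union_inter]
      have : 0 ≤ ∑ i ∈ (Icc 1 H).filter (fun h => (p + h).Prime) ∩ (Icc 1 p).filter (fun h => H < h),
        ((2 : ℝ) ^ i)⁻¹ * wt p := sum_nonneg fun _ _ => by positivity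
      linarith
    refine h4.trans (add_le_add ?_ ?_)
    · refine sum_le_sum fun h _ => ?_
      have : ((2 : ℝ) ^ h)⁻¹ ≤ 1 := inv_le_one_of_one_le₀ (one_le_pow₀ (by norm_num))
      calc ((2 : ℝ) ^ h)⁻¹ * wt p ≤ 1 * wt p := mul_le_mul_of_nonneg_right this hw
        _ = wt p := one_mul _
    · rw [← sum_mul]
      exact mul_le_mul_of_nonneg_right (geom_tail H p) hw
  have h5 : ∑ p ∈ PN n, ∑ h ∈ (Icc 1 H).filter (fun h => (p + h).Prime), wt p =
      ∑ h ∈ Icc 1 H, Tw h n := by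
    unfold Tw
    rw [Finset.sum_comm' (t' := Icc 1 H) (s' := fun h => (PN n).filter (fun p => (p + h).Prime))]
    intro p h
    simp only [mem_filter]
    tauto
  rw [sum_add_distrib, h5, ← mul_sum] at h2
  have h6 : ∑ h ∈ Icc 1 H, Tw h n ≤ ε / 2 * Real.log n := by
    calc ∑ h ∈ Icc 1 H, Tw h n ≤ ∑ _h ∈ Icc 1 H, (ε / 2 / (H + 1)) * Real.log n :=
          sum_le_sum hn
      _ = H * ((ε / 2 / (H + 1)) * Real.log n) := by
          rw [sum_const, Nat.card_Icc, nsmul_eq_mul]; simp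
      _ ≤ (H + 1) * ((ε / 2 / (H + 1)) * Real.log n) := by
          refine mul_le_mul_of_nonneg_right (by linarith) ?_
          have : 0 ≤ Real.log n := by linarith
          positivity
      _ = ε / 2 * Real.log n := by field_simp
  have h7 : ((2 : ℝ) ^ H)⁻¹ * ∑ p ∈ PN n, wt p ≤ ε / 4 * (2 * Real.log n) := by
    have h8 := hC n hn1
    exact mul_le_mul hH'.le (by linarith) (sum_nonneg fun p _ => wt_nonneg p) (by positivity)
  linarith

/-- `log (q / p)` in the interval `(u, v]` -/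
def inI (u v : ℝ) (p h : ℕ) : Prop :=
  u < Real.log (((p + h : ℕ) : ℝ) / p) ∧ Real.log (((p + h : ℕ) : ℝ) / p) ≤ v

open Classical in
lemma inner_sum {u v ε : ℝ} (huv : u < v) (hε : 0 < ε) : ∃ P : ℕ, ∀ p ≥ P,
    ∑ h ∈ (Icc 1 p).filter (fun h => (p + h).Prime ∧ inI u v p h), wt (p + h) ≤ v - u + ε := by
  have hab : Real.exp u < Real.exp v := Real.exp_lt_exp.2 huv
  have h1 := Pool.Agent.Y122.PC.mertens (Real.exp_pos u) hab
  have h2 : Real.log (Real.exp v / Real.exp u) = v - u := by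
    rw [← Real.exp_sub, Real.log_exp]
  rw [h2] at h1
  have h3 := (h1.comp tendsto_natCast_atTop_atTop).eventually
    (gt_mem_nhds (show v - u < v - u + ε by linarith))
  obtain ⟨P, hP⟩ := (h3.and (eventually_ge_atTop 1)).exists_forall_of_atTop
  refine ⟨P, fun p hp => ?_⟩
  obtain ⟨h4, hp1⟩ := hP p hp
  simp only [Function.comp] at h4
  have hp0 : (0 : ℝ) < p := by exact_mod_cast hp1
  refine le_trans ?_ h4.le
  have h5 : ∑ h ∈ (Icc 1 p).filter (fun h => (p + h).Prime ∧ inI u v p h), wt (p + h) =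
      ∑ q ∈ ((Icc 1 p).filter (fun h => (p + h).Prime ∧ inI u v p h)).image (fun h => p + h), wt q := by
    rw [sum_image]
    intro x _ y _ hxy
    simp only at hxy
    omega
  rw [h5]
  refine sum_le_sum_of_subset_of_nonneg ?_ (fun q _ _ => wt_nonneg q)
  intro q hq
  rw [mem_image] at hq
  obtain ⟨h, hh, rfl⟩ := hq
  rw [mem_filter, mem_Icc] at hh
  obtain ⟨_, hpr, hI1, hI2⟩ := hh
  have hq0 : (0 : ℝ) < ((p + h : ℕ) : ℝ) / p := by positivity
  rw [Pool.Agent.Y122.PC.mem_Pr (by positivity) (by positivity)]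
  refine ⟨hpr, ?_, ?_⟩
  · rw [← lt_div_iff₀ hp0]
    exact (Real.lt_log_iff_exp_lt hq0).1 hI1
  · rw [← div_le_iff₀ hp0]
    exact (Real.log_le_iff_le_exp hq0).1 hI2

lemma wt_le_two {p h : ℕ} (hp : 3 ≤ p) (hh : h ≤ p) : wt p ≤ 2 * wt (p + h) := by
  have hp0 : (0 : ℝ) < p := by
    have : 0 < p := by omega
    exact_mod_cast this
  have hhr : ((p + h : ℕ) : ℝ) ≤ 2 * p := by
    have : p + h ≤ 2 * p := by omega
    exact_mod_cast this
  have hq0 : (0 : ℝ) < ((p + h : ℕ) : ℝ) := by positivity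
  unfold wt
  rw [← mul_div_assoc, div_le_div_iff₀ hp0 hq0]
  have h1 : Real.log p ≤ Real.log ((p + h : ℕ) : ℝ) :=
    Real.log_le_log hp0 (by push_cast; linarith [(Nat.cast_nonneg h : (0 : ℝ) ≤ h)])
  have h2 : 0 ≤ Real.log p := Real.log_natCast_nonneg p
  calc Real.log p * ((p + h : ℕ) : ℝ) ≤ Real.log p * (2 * p) := mul_le_mul_of_nonneg_left hhr h2
    _ ≤ Real.log ((p + h : ℕ) : ℝ) * (2 * p) := mul_le_mul_of_nonneg_right h1 (by positivity)
    _ = 2 * Real.log ((p + h : ℕ) : ℝ) * p := by ring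

open Classical in
/-- the main sum -/
noncomputable def Bn (u v : ℝ) (n : ℕ) : ℝ :=
  ∑ p ∈ PN n, ∑ h ∈ (Icc 1 p).filter (fun h => (p + h).Prime ∧ inI u v p h),
    (wt p ^ 2 + ((2 : ℝ) ^ h)⁻¹ * wt p)

open Classical in
/-- The main sum is at most `2 (v - u) log n` up to `o (log n)`. -/
theorem Bn_le {u v : ℝ} (huv : u < v) {ε : ℝ} (hε : 0 < ε) :
    ∀ᶠ n : ℕ in atTop, Bn u v n ≤ (2 * (v - u) + ε) * Real.log n := by
  obtain ⟨C, hC0, hC⟩ := mertens_le
  obtain ⟨P, hP⟩ := inner_sum (ε := ε / 8) huv (by positivity)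
  set Q := max P 3 with hQ
  set K : ℝ := ∑ p ∈ range Q, ∑ h ∈ (Icc 1 p).filter (fun h => (p + h).Prime ∧ inI u v p h), wt p ^ 2
    with hK
  have hK0 : 0 ≤ K := sum_nonneg fun _ _ => sum_nonneg fun _ _ => by positivity
  set D : ℝ := 2 * (v - u + ε / 8) with hD
  have hD0 : 0 < D := by rw [hD]; linarith
  filter_upwards [Rn_small (ε := ε / 4) (by positivity), eventually_ge_atTop 1,
    log_nat_atTop.eventually_ge_atTop ((K + D * C) * 4 / ε)] with n hR hn1 hlog
  have hlog' : K + D * C ≤ ε / 4 * Real.log n := by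
    rw [div_le_iff₀ hε] at hlog
    linarith
  have h1 : Bn u v n ≤ (∑ p ∈ PN n, ∑ h ∈ (Icc 1 p).filter
      (fun h => (p + h).Prime ∧ inI u v p h), wt p ^ 2) + Rn n := by
    unfold Bn Rn
    rw [← sum_add_distrib]
    refine sum_le_sum fun p _ => ?_
    rw [sum_add_distrib]
    refine add_le_add le_rfl ?_
    refine sum_le_sum_of_subset_of_nonneg ?_ (fun _ _ _ => by
      have := wt_nonneg p
      positivity)
    intro h hh
    rw [mem_filter] at hh ⊢
    exact ⟨hh.1, hh.2.1⟩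
  have h2 : ∑ p ∈ PN n, ∑ h ∈ (Icc 1 p).filter
      (fun h => (p + h).Prime ∧ inI u v p h), wt p ^ 2 ≤ K + D * ∑ p ∈ PN n, wt p := by
    have h3 : ∀ p ∈ PN n, ∑ h ∈ (Icc 1 p).filter
        (fun h => (p + h).Prime ∧ inI u v p h), wt p ^ 2 ≤
        (if p < Q then ∑ h ∈ (Icc 1 p).filter (fun h => (p + h).Prime ∧ inI u v p h), wt p ^ 2
          else 0) + D * wt p := by
      intro p _
      have hw := wt_nonneg p
      split_ifs with hpQ
      · have : 0 ≤ D * wt p := by positivity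
        linarith
      · push Not at hpQ
        have hp3 : 3 ≤ p := (le_max_right _ _).trans hpQ
        have hpP : P ≤ p := (le_max_left _ _).trans hpQ
        rw [zero_add]
        calc ∑ h ∈ (Icc 1 p).filter (fun h => (p + h).Prime ∧ inI u v p h), wt p ^ 2
            ≤ ∑ h ∈ (Icc 1 p).filter (fun h => (p + h).Prime ∧ inI u v p h),
              2 * wt p * wt (p + h) := by
              refine sum_le_sum fun h hh => ?_
              rw [mem_filter, mem_Icc] at hh
              have := wt_le_two hp3 hh.1.2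
              nlinarith
          _ = 2 * wt p * ∑ h ∈ (Icc 1 p).filter (fun h => (p + h).Prime ∧ inI u v p h),
              wt (p + h) := by rw [mul_sum]
          _ ≤ 2 * wt p * (v - u + ε / 8) := mul_le_mul_of_nonneg_left (hP p hpP) (by positivity)
          _ = D * wt p := by rw [hD]; ring
    refine (sum_le_sum h3).trans ?_
    rw [sum_add_distrib, ← mul_sum]
    refine add_le_add ?_ le_rfl
    rw [← sum_filter]
    refine sum_le_sum_of_subset_of_nonneg ?_ (fun _ _ _ => sum_nonneg fun _ _ => by positivity)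
    intro p hp
    rw [mem_filter] at hp
    rw [mem_range]
    exact hp.2
  have h4 : D * ∑ p ∈ PN n, wt p ≤ D * (Real.log n + C) :=
    mul_le_mul_of_nonneg_left (hC n hn1) hD0.le
  calc Bn u v n ≤ K + D * (Real.log n + C) + ε / 4 * Real.log n := by linarith
    _ = (2 * (v - u) + ε / 2) * Real.log n + (K + D * C) := by rw [hD]; ring
    _ ≤ (2 * (v - u) + ε / 2) * Real.log n + ε / 4 * Real.log n := by linarith
    _ ≤ (2 * (v - u) + ε) * Real.log n := by
        have : 0 ≤ Real.log n := Real.log_natCast_nonneg n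
        nlinarith

end Pool.Agent.Run7.h129.Mer
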