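import Mathlib
import Pool.Agent.Run7.h129.Mer.Cell
import Pool.Agent.Run7.h129.Mer.Sums

/-!
# The mean number of pairs of exponents over a cell of amplitudes
-/

set_option autoImplicit false

namespace Pool.Agent.Run7.h129.Mer

open Finset Filter Topology MeasureTheory
open Pool.Agent.H305R2 (roughPart)

lemma NB_const {t n : ℕ} {β : ℝ} (h1 : (n : ℝ) / 2 ^ t < β) (h2 : β ≤ ((n : ℝ) + 1) / 2 ^ t) :
    NB 2 β t = n := by
  have h3 : (0 : ℝ) < 2 ^ t := by positivity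
  rw [div_lt_iff₀ h3] at h1
  rw [le_div_iff₀ h3] at h2
  unfold NB
  push_cast
  have h4 : ⌈β * (2 : ℝ) ^ t⌉₊ = n + 1 := by
    rw [Nat.ceil_eq_iff (by omega)]
    constructor
    · rw [Nat.add_sub_cancel]; exact h1
    · push_cast; exact h2
  omega

lemma measurable_NB (t : ℕ) : Measurable (fun β : ℝ => NB 2 β t) := by
  unfold NB
  exact (measurable_of_countable (fun k : ℕ => k - 1)).comp
    (Nat.measurable_ceil.comp (measurable_id.mul_const _))

lemma measurable_F (F : ℕ → ℝ) (t : ℕ) : Measurable (fun β : ℝ => F (NB 2 β t)) :=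
  (measurable_of_countable F).comp (measurable_NB t)

lemma integrableOn_F {F : ℕ → ℝ} (hF : ∀ n, |F n| ≤ 1) (t : ℕ) (a b : ℝ) :
    IntegrableOn (fun β : ℝ => F (NB 2 β t)) (Set.Ioc a b) :=
  Measure.integrableOn_of_bounded (M := 1) (by simp) (measurable_F F t).aestronglyMeasurable
    (Eventually.of_forall fun β => by rw [Real.norm_eq_abs]; exact hF _)

lemma int_cells {F : ℕ → ℝ} (hF : ∀ n, |F n| ≤ 1) (t A B : ℕ) (hAB : A ≤ B) :
    ∫ β in Set.Ioc ((A : ℝ) / 2 ^ t) ((B : ℝ) / 2 ^ t), F (NB 2 β t) = (∑ n ∈ Ico A B, F n) / 2 ^ t := by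
  have h3 : (0 : ℝ) < 2 ^ t := by positivity
  induction B, hAB using Nat.le_induction with
  | base => simp
  | succ B hAB ih =>
    have e : Set.Ioc ((A : ℝ) / 2 ^ t) (((B + 1 : ℕ) : ℝ) / 2 ^ t) =
        Set.Ioc ((A : ℝ) / 2 ^ t) ((B : ℝ) / 2 ^ t) ∪
          Set.Ioc ((B : ℝ) / 2 ^ t) (((B + 1 : ℕ) : ℝ) / 2 ^ t) := by
      rw [Set.Ioc_union_Ioc_eq_Ioc]
      · exact div_le_div_of_nonneg_right (by exact_mod_cast hAB) h3.le
      · exact div_le_div_of_nonneg_right (by push_cast; linarith) h3.le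
    rw [e, setIntegral_union (by
        rw [Set.disjoint_left]
        intro x hx hy
        exact absurd hx.2 (not_le.2 hy.1)) measurableSet_Ioc (integrableOn_F hF t _ _)
      (integrableOn_F hF t _ _), ih, sum_Ico_succ_top hAB, add_div]
    congr 1
    have h4 : ∫ β in Set.Ioc ((B : ℝ) / 2 ^ t) (((B + 1 : ℕ) : ℝ) / 2 ^ t), F (NB 2 β t) =
        ∫ β in Set.Ioc ((B : ℝ) / 2 ^ t) (((B + 1 : ℕ) : ℝ) / 2 ^ t), F B := by
      refine setIntegral_congr_fun measurableSet_Ioc fun β hβ => ?_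
      have h5 : NB 2 β t = B := NB_const hβ.1 (by have := hβ.2; push_cast at this; exact this)
      show F (NB 2 β t) = F B
      rw [h5]
    rw [h4, setIntegral_const, Measure.real, Real.volume_Ioc, smul_eq_mul,
      ENNReal.toReal_ofReal (by
        rw [sub_nonneg]
        exact div_le_div_of_nonneg_right (by push_cast; linarith) h3.le)]
    push_cast
    field_simp
    ring

/-- the indicator of the amplitudes with prime `p`-rough part at `p` -/
noncomputable def ee (p : ℕ) (β : ℝ) : ℝ := XX p (NB 2 β p)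

lemma XX_le_one (p n : ℕ) : XX p n ≤ 1 := by unfold XX; split_ifs <;> norm_num

lemma ee_nonneg (p : ℕ) (β : ℝ) : 0 ≤ ee p β := XX_nonneg _ _

lemma ee_le_one (p : ℕ) (β : ℝ) : ee p β ≤ 1 := XX_le_one _ _

lemma measurable_ee (p : ℕ) : Measurable (ee p) := measurable_F (XX p) p

lemma ee_mul_int (p q : ℕ) (a b : ℝ) :
    IntegrableOn (fun β : ℝ => ee p β * ee q β) (Set.Ioc a b) :=
  Measure.integrableOn_of_bounded (M := 1) (by simp)
    ((measurable_ee p).mul (measurable_ee q)).aestronglyMeasurable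
    (Eventually.of_forall fun β => by
      rw [Real.norm_eq_abs, abs_of_nonneg (mul_nonneg (ee_nonneg _ _) (ee_nonneg _ _))]
      exact mul_le_one₀ (ee_le_one _ _) (ee_nonneg _ _) (ee_le_one _ _))

theorem pair_int : ∃ C : ℝ, 0 < C ∧ ∃ P : ℕ, ∀ p ≥ P, ∀ h : ℕ, 1 ≤ h → h ≤ p → ∀ z : ℕ, 32 * z ≤ p →
    ∀ j : ℕ, 1 ≤ j → j ≤ 2 ^ (2 * z) →
    ∫ β in Set.Ioc ((j : ℝ) / 2 ^ z) (((j : ℝ) + 1) / 2 ^ z), ee p β * ee (p + h) β ≤
      C * (wt p ^ 2 + ((2 : ℝ) ^ h)⁻¹ * wt p) * ((2 : ℝ) ^ z)⁻¹ := by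
  obtain ⟨C, hC, P, hP⟩ := cell_pair (b := 2) le_rfl
  refine ⟨C, hC, P, fun p hp h hh1 hhp z hz j hj1 hj2 => ?_⟩
  have h1 := hP p hp h hh1 hhp z hz j hj1 hj2
  set t := p + h with ht
  have hzt : z ≤ t := by omega
  have hz0 : (0 : ℝ) < 2 ^ z := by positivity
  have ht0 : (0 : ℝ) < 2 ^ t := by positivity
  have htz : (0 : ℝ) < 2 ^ (t - z) := by positivity
  have hpow : (2 : ℝ) ^ t = 2 ^ (t - z) * 2 ^ z := by
    rw [← pow_add]; congr 1; omega
  set F : ℕ → ℝ := fun n => XX p (n / 2 ^ h) * XX t n with hF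
  have hF1 : ∀ n, |F n| ≤ 1 := fun n => by
    simp only [hF]
    rw [abs_of_nonneg (mul_nonneg (XX_nonneg _ _) (XX_nonneg _ _))]
    exact mul_le_one₀ (XX_le_one _ _) (XX_nonneg _ _) (XX_le_one _ _)
  have e1 : (j : ℝ) / 2 ^ z = ((j * 2 ^ (t - z) : ℕ) : ℝ) / 2 ^ t := by
    rw [hpow]; push_cast; field_simp
  have e2 : ((j : ℝ) + 1) / 2 ^ z = (((j + 1) * 2 ^ (t - z) : ℕ) : ℝ) / 2 ^ t := by
    rw [hpow]; push_cast; field_simp
  have h2 : ∫ β in Set.Ioc ((j : ℝ) / 2 ^ z) (((j : ℝ) + 1) / 2 ^ z), ee p β * ee t β =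
      ∫ β in Set.Ioc ((j : ℝ) / 2 ^ z) (((j : ℝ) + 1) / 2 ^ z), F (NB 2 β t) := by
    refine setIntegral_congr_fun measurableSet_Ioc fun β hβ => ?_
    have hβ0 : 0 < β := lt_of_le_of_lt (by positivity) hβ.1
    have h3 := NB_div (b := 2) le_rfl hβ0 (show p ≤ t by omega)
    have h4 : t - p = h := by omega
    rw [h4] at h3
    simp only [hF, ee]
    rw [h3]
  rw [h2, e1, e2, int_cells hF1 t _ _ (Nat.mul_le_mul_right _ (Nat.le_succ j)),
    div_le_iff₀ ht0]
  refine h1.trans (le_of_eq ?_)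
  push_cast
  rw [hpow]
  unfold wt
  field_simp

open Classical in
/-- the number of the pairs of exponents `p`, `p + h` with `p ≤ n` and `log ((p + h) / p)` in
`(u, v]` -/
noncomputable def Xf (u v : ℝ) (n : ℕ) (β : ℝ) : ℝ :=
  ∑ p ∈ PN n, ∑ h ∈ (Icc 1 p).filter (fun h => (p + h).Prime ∧ inI u v p h), ee p β * ee (p + h) β

lemma Xf_nonneg (u v : ℝ) (n : ℕ) (β : ℝ) : 0 ≤ Xf u v n β :=
  sum_nonneg fun _ _ => sum_nonneg fun _ _ => mul_nonneg (ee_nonneg _ _) (ee_nonneg _ _)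

lemma measurable_Xf (u v : ℝ) (n : ℕ) : Measurable (Xf u v n) := by
  unfold Xf
  exact Finset.measurable_fun_sum _ fun p _ => Finset.measurable_fun_sum _ fun h _ =>
    (measurable_ee p).mul (measurable_ee (p + h))

lemma Xf_int (u v : ℝ) (n : ℕ) (a b : ℝ) : IntegrableOn (Xf u v n) (Set.Ioc a b) := by
  unfold Xf
  exact integrable_finsetSum _ fun p _ => integrable_finsetSum _ fun h _ => ee_mul_int p (p + h) a b

/-- **The mean number of pairs over a cell.** -/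
theorem mean_X : ∃ C : ℝ, 0 < C ∧ ∀ z : ℕ, ∃ K : ℝ, ∀ j : ℕ, 1 ≤ j → j ≤ 2 ^ (2 * z) →
    ∀ (u v : ℝ) (n : ℕ),
    ∫ β in Set.Ioc ((j : ℝ) / 2 ^ z) (((j : ℝ) + 1) / 2 ^ z), Xf u v n β ≤
      (C * Bn u v n + K) * ((2 : ℝ) ^ z)⁻¹ := by
  classical
  obtain ⟨C, hC, P, hP⟩ := pair_int
  refine ⟨C, hC, fun z => ?_⟩
  set Q := max P (32 * z) with hQ
  refine ⟨∑ p ∈ range Q, (p : ℝ), fun j hj1 hj2 u v n => ?_⟩
  have hz0 : (0 : ℝ) < ((2 : ℝ) ^ z)⁻¹ := by positivity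
  set c := Set.Ioc ((j : ℝ) / 2 ^ z) (((j : ℝ) + 1) / 2 ^ z) with hc
  have hvol : ∫ _β in c, (1 : ℝ) = ((2 : ℝ) ^ z)⁻¹ := by
    rw [setIntegral_const, Measure.real, hc, Real.volume_Ioc, smul_eq_mul, mul_one,
      ENNReal.toReal_ofReal]
    · field_simp; ring
    · rw [sub_nonneg]
      exact div_le_div_of_nonneg_right (by linarith) (by positivity)
  have hterm : ∀ p : ℕ, ∀ h ∈ (Icc 1 p).filter (fun h => (p + h).Prime ∧ inI u v p h),
      ∫ β in c, ee p β * ee (p + h) β ≤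
      (C * (wt p ^ 2 + ((2 : ℝ) ^ h)⁻¹ * wt p) + if p < Q then 1 else 0) * ((2 : ℝ) ^ z)⁻¹ := by
    intro p h hh
    rw [mem_filter, mem_Icc] at hh
    have hw := wt_nonneg p
    split_ifs with hpQ
    · have h1 : ∫ β in c, ee p β * ee (p + h) β ≤ ∫ _β in c, (1 : ℝ) := by
        refine setIntegral_mono (ee_mul_int p (p + h) _ _) (by simp [hc]) fun β => ?_
        exact mul_le_one₀ (ee_le_one _ _) (ee_nonneg _ _) (ee_le_one _ _)
      rw [hvol] at h1
      refine h1.trans ?_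
      have : 0 ≤ C * (wt p ^ 2 + ((2 : ℝ) ^ h)⁻¹ * wt p) := by positivity
      nlinarith
    · push Not at hpQ
      rw [add_zero]
      exact hP p ((le_max_left _ _).trans hpQ) h hh.1.1 hh.1.2 z ((le_max_right _ _).trans hpQ)
        j hj1 hj2
  have h1 : ∫ β in c, Xf u v n β = ∑ p ∈ PN n, ∑ h ∈ (Icc 1 p).filter
      (fun h => (p + h).Prime ∧ inI u v p h), ∫ β in c, ee p β * ee (p + h) β := by
    unfold Xf
    rw [integral_finsetSum _ fun p _ => integrable_finsetSum _ fun h _ => ee_mul_int p (p + h) _ _]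
    refine sum_congr rfl fun p _ => ?_
    rw [integral_finsetSum _ fun h _ => ee_mul_int p (p + h) _ _]
  rw [h1]
  have h2 : ∑ p ∈ PN n, ∑ h ∈ (Icc 1 p).filter (fun h => (p + h).Prime ∧ inI u v p h),
      (if p < Q then (1 : ℝ) else 0) ≤ ∑ p ∈ range Q, (p : ℝ) := by
    calc _ ≤ ∑ p ∈ PN n, (if p < Q then (p : ℝ) else 0) := by
          refine sum_le_sum fun p _ => ?_
          split_ifs with hpQ
          · rw [sum_const, nsmul_eq_mul, mul_one]
            have := card_filter_le (Icc 1 p) (fun h => (p + h).Prime ∧ inI u v p h)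
            rw [Nat.card_Icc] at this
            exact_mod_cast this.trans (by omega)
          · simp
      _ = ∑ p ∈ (PN n).filter (fun p => p < Q), (p : ℝ) := by rw [sum_filter]
      _ ≤ _ := by
          refine sum_le_sum_of_subset_of_nonneg ?_ (fun p _ _ => Nat.cast_nonneg p)
          intro p hp
          rw [mem_filter] at hp
          rw [mem_range]
          exact hp.2
  calc _ ≤ ∑ p ∈ PN n, ∑ h ∈ (Icc 1 p).filter (fun h => (p + h).Prime ∧ inI u v p h),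
        (C * (wt p ^ 2 + ((2 : ℝ) ^ h)⁻¹ * wt p) + if p < Q then 1 else 0) * ((2 : ℝ) ^ z)⁻¹ :=
        sum_le_sum fun p _ => sum_le_sum fun h hh => hterm p h hh
    _ = (C * Bn u v n + ∑ p ∈ PN n, ∑ h ∈ (Icc 1 p).filter (fun h => (p + h).Prime ∧ inI u v p h),
        (if p < Q then (1 : ℝ) else 0)) * ((2 : ℝ) ^ z)⁻¹ := by
        unfold Bn
        rw [mul_sum, ← sum_add_distrib, sum_mul]
        refine sum_congr rfl fun p _ => ?_
        rw [mul_sum, ← sum_add_distrib, sum_mul]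
    _ ≤ _ := by
        refine mul_le_mul_of_nonneg_right ?_ hz0.le
        linarith

end Pool.Agent.Run7.h129.Mer
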