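import Mathlib

/-!
# Sets of relative density less than one in all dyadic cells are null sets
-/

set_option autoImplicit false

namespace Pool.Agent.Run7.h129.Mer

open Filter Topology MeasureTheory Metric

lemma null_of_cells {S : Set ℝ} (hS : MeasurableSet S) (hpos : ∀ x ∈ S, 0 < x) {θ : ℝ} (hθ0 : 0 ≤ θ)
    (hθ : θ < 1)
    (h : ∀ z j : ℕ, 1 ≤ j → j ≤ 2 ^ (2 * z) →
      volume (S ∩ Set.Ioc ((j : ℝ) / 2 ^ z) (((j : ℝ) + 1) / 2 ^ z)) ≤
        ENNReal.ofReal (θ * ((2 : ℝ) ^ z)⁻¹)) : volume S = 0 := by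
  have key := IsUnifLocDoublingMeasure.ae_tendsto_measure_inter_div (volume : Measure ℝ) S 1
  rw [ae_restrict_iff' hS] at key
  have h0 : ∀ᵐ x : ℝ, x ∉ S := by
    filter_upwards [key] with x hx hxS
    have hx0 := hpos x hxS
    set j : ℕ → ℕ := fun z => ⌈x * 2 ^ z⌉₊ - 1 with hj
    set w : ℕ → ℝ := fun z => ((j z : ℝ) + 1 / 2) / 2 ^ z with hw
    set δ : ℕ → ℝ := fun z => ((2 : ℝ) ^ z)⁻¹ / 2 with hδ
    have hj1 : ∀ z, (j z : ℝ) < x * 2 ^ z ∧ x * 2 ^ z ≤ j z + 1 := by
      intro z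
      have hp : 0 < x * 2 ^ z := by positivity
      have h1 : 0 < ⌈x * (2 : ℝ) ^ z⌉₊ := Nat.ceil_pos.2 hp
      constructor
      · exact Nat.lt_ceil.1 (by simp only [hj]; omega)
      · have h2 : x * 2 ^ z ≤ ⌈x * (2 : ℝ) ^ z⌉₊ := Nat.le_ceil _
        have h3 : ⌈x * (2 : ℝ) ^ z⌉₊ = j z + 1 := by simp only [hj]; omega
        rw [h3] at h2
        push_cast at h2
        exact h2
    have hball : ∀ z, closedBall (w z) (δ z) = Set.Icc ((j z : ℝ) / 2 ^ z) (((j z : ℝ) + 1) / 2 ^ z) := by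
      intro z
      rw [Real.closedBall_eq_Icc]
      congr 1
      · simp only [hw, hδ]; field_simp; ring
      · simp only [hw, hδ]; field_simp; ring
    have hδ0 : Tendsto δ atTop (𝓝[>] 0) := by
      rw [tendsto_nhdsWithin_iff]
      constructor
      · have h1 : Tendsto (fun z : ℕ => ((2 : ℝ) ^ z)⁻¹ / 2) atTop (𝓝 (0 / 2)) :=
          ((tendsto_pow_atTop_atTop_of_one_lt one_lt_two).inv_tendsto_atTop).div_const 2
        rwa [zero_div] at h1
      · exact Eventually.of_forall fun z => by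
          simp only [hδ, Set.mem_Ioi]; positivity
    have hmem : ∀ᶠ z in atTop, x ∈ closedBall (w z) (1 * δ z) := by
      refine Eventually.of_forall fun z => ?_
      rw [one_mul, hball]
      obtain ⟨h1, h2⟩ := hj1 z
      have h3 : (0 : ℝ) < 2 ^ z := by positivity
      constructor
      · rw [div_le_iff₀ h3]; exact h1.le
      · rw [le_div_iff₀ h3]; exact h2
    have hlim := hx hxS w δ hδ0 hmem
    have hvol : ∀ z, volume (closedBall (w z) (δ z)) = ENNReal.ofReal ((2 : ℝ) ^ z)⁻¹ := by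
      intro z
      rw [hball, Real.volume_Icc]
      congr 1
      field_simp
      ring
    have hle : ∀ᶠ z in atTop, volume (S ∩ closedBall (w z) (δ z)) / volume (closedBall (w z) (δ z)) ≤
        ENNReal.ofReal θ := by
      have h2z : Tendsto (fun z : ℕ => (2 : ℝ) ^ z) atTop atTop :=
        tendsto_pow_atTop_atTop_of_one_lt one_lt_two
      filter_upwards [h2z.eventually_ge_atTop (2 / x), h2z.eventually_ge_atTop x] with z hz1 hz2
      have h3 : (0 : ℝ) < 2 ^ z := by positivity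
      have hj1' : 1 ≤ j z := by
        have h4 : 2 ≤ x * 2 ^ z := by
          rw [div_le_iff₀ hx0] at hz1
          linarith
        have h5 : (1 : ℝ) ≤ j z := by linarith [(hj1 z).2]
        exact_mod_cast h5
      have hj2 : j z ≤ 2 ^ (2 * z) := by
        have h4 : (j z : ℝ) ≤ 2 ^ (2 * z) := by
          calc (j z : ℝ) ≤ x * 2 ^ z := (hj1 z).1.le
            _ ≤ 2 ^ z * 2 ^ z := mul_le_mul_of_nonneg_right hz2 h3.le
            _ = 2 ^ (2 * z) := by rw [← pow_add]; congr 1; ring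
        exact_mod_cast h4
      have h4 : volume (S ∩ closedBall (w z) (δ z)) ≤
          volume (S ∩ Set.Ioc ((j z : ℝ) / 2 ^ z) (((j z : ℝ) + 1) / 2 ^ z)) := by
        rw [hball]
        have h5 : S ∩ Set.Icc ((j z : ℝ) / 2 ^ z) (((j z : ℝ) + 1) / 2 ^ z) ⊆
            (S ∩ Set.Ioc ((j z : ℝ) / 2 ^ z) (((j z : ℝ) + 1) / 2 ^ z)) ∪ {(j z : ℝ) / 2 ^ z} := by
          rintro y ⟨hy1, hy2, hy3⟩
          rcases hy2.eq_or_lt with h6 | h6
          · exact Or.inr h6.symm
          · exact Or.inl ⟨hy1, h6, hy3⟩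
        refine (measure_mono h5).trans ((measure_union_le _ _).trans ?_)
        rw [Real.volume_singleton, add_zero]
      rw [hvol]
      refine ENNReal.div_le_of_le_mul ?_
      rw [← ENNReal.ofReal_mul hθ0]
      exact h4.trans (h z (j z) hj1' hj2)
    have h1 := le_of_tendsto hlim hle
    rw [ENNReal.one_le_ofReal] at h1
    linarith
  rw [ae_iff] at h0
  simpa using h0

end Pool.Agent.Run7.h129.Mer
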