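import Mathlib
import Pool.Agent.Run7.h129.Mer.CellInt
import Pool.Agent.Run7.h129.Mer.Null

/-!
# Pairs of exponents with ratio in a given set, for almost every amplitude
-/

set_option autoImplicit false

namespace Pool.Agent.Run7.h129.Mer

open Finset Filter Topology MeasureTheory

/-- For almost every amplitude there are infinitely many `n` for which the number of the pairs of
exponents up to `n` with `log (q / p)` in a finite union of intervals is at most a constant times
the total length times `log n`. -/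
theorem ae_freq : ∃ C0 : ℝ, 0 < C0 ∧ ∀ (ι : Type) (s : Finset ι) (u v : ι → ℝ),
    (∀ i ∈ s, 0 ≤ u i ∧ u i < v i) → ∀ lam : ℝ, C0 * ∑ i ∈ s, (v i - u i) < lam →
    ∀ᵐ β : ℝ, 0 < β → ∃ᶠ n : ℕ in atTop, ∑ i ∈ s, Xf (u i) (v i) n β < lam * Real.log n := by
  obtain ⟨C, hC, hmean⟩ := mean_X
  refine ⟨2 * C, by positivity, fun ι s u v huv lam hlam => ?_⟩
  set σ := ∑ i ∈ s, (v i - u i) with hσ
  have hσ0 : 0 ≤ σ := sum_nonneg fun i hi => by linarith [(huv i hi).2]
  have hlam0 : 0 < lam := lt_of_le_of_lt (by positivity) hlam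
  -- the choice of `ε`
  set ε : ℝ := (lam - 2 * C * σ) / (4 * C * (s.card + 1)) with hε
  have hε0 : 0 < ε := by
    have : 0 < lam - 2 * C * σ := by linarith
    positivity
  have hεs : C * (s.card * ε) ≤ (lam - 2 * C * σ) / 4 := by
    have h1 : C * ((s.card + 1) * ε) = (lam - 2 * C * σ) / 4 := by
      rw [hε]; field_simp
    have h2 : C * (s.card * ε) ≤ C * ((s.card + 1) * ε) := by
      refine mul_le_mul_of_nonneg_left ?_ hC.le
      nlinarith
    linarith
  set X : ℕ → ℝ → ℝ := fun n β => ∑ i ∈ s, Xf (u i) (v i) n β with hX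
  have hXm : ∀ n, Measurable (X n) := fun n =>
    Finset.measurable_fun_sum _ fun i _ => measurable_Xf _ _ n
  have hX0 : ∀ n β, 0 ≤ X n β := fun n β => sum_nonneg fun i _ => Xf_nonneg _ _ _ _
  set Bad : ℕ → Set ℝ := fun m => {β | 0 < β ∧ ∀ n : ℕ, m ≤ n → lam * Real.log n ≤ X n β} with hBad
  have hBadm : ∀ m, MeasurableSet (Bad m) := by
    intro m
    have e : Bad m = Set.Ioi 0 ∩ ⋂ n : ℕ, ⋂ _ : m ≤ n, {β | lam * Real.log n ≤ X n β} := by
      ext β
      simp only [hBad, Set.mem_ofPred_eq, Set.mem_inter_iff, Set.mem_Ioi, Set.mem_iInter]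
    rw [e]
    refine measurableSet_Ioi.inter (MeasurableSet.iInter fun n => MeasurableSet.iInter fun _ => ?_)
    exact measurableSet_le measurable_const (hXm n)
  have hev : ∀ᶠ n : ℕ in atTop, ∀ i ∈ s, Bn (u i) (v i) n ≤ (2 * (v i - u i) + ε) * Real.log n := by
    rw [Filter.eventually_all_finset]
    intro i hi
    exact Bn_le (huv i hi).2 hε0
  set θ : ℝ := (1 + 2 * C * σ / lam) / 2 with hθ
  have hr1 : 2 * C * σ / lam < 1 := (div_lt_one hlam0).2 hlam
  have hr0 : 0 ≤ 2 * C * σ / lam := by positivity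
  have hθ1 : θ < 1 := by rw [hθ]; linarith
  have hθ0 : 0 ≤ θ := by rw [hθ]; linarith
  have hnull : ∀ m, volume (Bad m) = 0 := by
    intro m
    refine null_of_cells (hBadm m) (fun x hx => hx.1) hθ0 hθ1 fun z j hj1 hj2 => ?_
    obtain ⟨K, hK⟩ := hmean z
    set c := Set.Ioc ((j : ℝ) / 2 ^ z) (((j : ℝ) + 1) / 2 ^ z) with hc
    have hz0 : (0 : ℝ) < ((2 : ℝ) ^ z)⁻¹ := by positivity
    obtain ⟨n, hn1, hn2, hn3⟩ := (hev.and ((eventually_ge_atTop m).and
      (log_nat_atTop.eventually_ge_atTop (max 1 (4 * (s.card * |K|) / (lam - 2 * C * σ)))))).exists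
    have hlog1 : 1 ≤ Real.log n := (le_max_left _ _).trans hn3
    have hgap : 0 < lam - 2 * C * σ := by linarith
    have hlogK : s.card * |K| ≤ (lam - 2 * C * σ) / 4 * Real.log n := by
      have h1 := (le_max_right _ _).trans hn3
      rw [div_le_iff₀ hgap] at h1
      linarith
    have hint : ∫ β in c, X n β ≤ (θ * lam * Real.log n) * ((2 : ℝ) ^ z)⁻¹ := by
      have h1 : ∫ β in c, X n β = ∑ i ∈ s, ∫ β in c, Xf (u i) (v i) n β := by
        simp only [hX]
        exact integral_finsetSum _ fun i _ => Xf_int _ _ n _ _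
      rw [h1]
      calc ∑ i ∈ s, ∫ β in c, Xf (u i) (v i) n β
          ≤ ∑ i ∈ s, (C * ((2 * (v i - u i) + ε) * Real.log n) + |K|) * ((2 : ℝ) ^ z)⁻¹ := by
            refine sum_le_sum fun i hi => (hK j hj1 hj2 (u i) (v i) n).trans ?_
            refine mul_le_mul_of_nonneg_right ?_ hz0.le
            exact add_le_add (mul_le_mul_of_nonneg_left (hn1 i hi) hC.le) (le_abs_self K)
        _ = ((2 * C * σ + C * (s.card * ε)) * Real.log n + s.card * |K|) * ((2 : ℝ) ^ z)⁻¹ := by
            rw [← sum_mul, sum_add_distrib, sum_const, nsmul_eq_mul, ← mul_sum, ← sum_mul,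
              sum_add_distrib, ← mul_sum, sum_const, nsmul_eq_mul, ← hσ]
            ring
        _ ≤ (θ * lam * Real.log n) * ((2 : ℝ) ^ z)⁻¹ := by
            refine mul_le_mul_of_nonneg_right ?_ hz0.le
            have h2 : θ * lam = (lam + 2 * C * σ) / 2 := by rw [hθ]; field_simp
            rw [h2]
            have h3 : C * (s.card * ε) * Real.log n ≤ (lam - 2 * C * σ) / 4 * Real.log n :=
              mul_le_mul_of_nonneg_right hεs (by linarith)
            nlinarith
    have hsub : Bad m ∩ c ⊆ {β | lam * Real.log n ≤ X n β} ∩ c := by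
      rintro β ⟨hβ, hβc⟩
      exact ⟨hβ.2 n hn2, hβc⟩
    refine (measure_mono hsub).trans ?_
    have hpos : 0 < lam * Real.log n := by positivity
    have hcheb := mul_meas_ge_le_integral_of_nonneg (μ := volume.restrict c) (f := X n)
      (Eventually.of_forall fun β => hX0 n β)
      (by
        simp only [hX]
        exact integrable_finsetSum _ fun i _ => Xf_int _ _ n _ _)
      (lam * Real.log n)
    rw [measureReal_restrict_apply' measurableSet_Ioc] at hcheb
    have hfin : volume ({β | lam * Real.log n ≤ X n β} ∩ c) ≠ ⊤ :=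
      (measure_mono Set.inter_subset_right |>.trans_lt (by rw [hc, Real.volume_Ioc]; exact ENNReal.ofReal_lt_top)).ne
    rw [← ENNReal.ofReal_toReal hfin]
    refine ENNReal.ofReal_le_ofReal ?_
    have h4 := hcheb.trans hint
    have h5 : lam * Real.log n * (volume ({β | lam * Real.log n ≤ X n β} ∩ c)).toReal ≤
        lam * Real.log n * (θ * ((2 : ℝ) ^ z)⁻¹) := by
      refine h4.trans (le_of_eq ?_)
      ring
    exact le_of_mul_le_mul_left h5 hpos
  have hall : ∀ᵐ β : ℝ, ∀ m, β ∉ Bad m := by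
    rw [ae_all_iff]
    intro m
    rw [ae_iff]
    simpa using hnull m
  filter_upwards [hall] with β hβ hβ0
  rw [frequently_atTop]
  intro m
  have h1 := hβ m
  simp only [hBad, Set.mem_ofPred_eq, not_and] at h1
  have h2 := h1 hβ0
  push Not at h2
  obtain ⟨n, hn1, hn2⟩ := h2
  exact ⟨n, hn1, hn2⟩

end Pool.Agent.Run7.h129.Mer
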