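import Mathlib

/-!
# Sequences of gaps with a given average: elementary lemmas
-/

set_option autoImplicit false

namespace Pool.Agent.Run7.h129.Mer

open Finset Filter Topology

variable {g : ℕ → ℝ} {a K μ η : ℝ} {F : Set ℝ}

lemma count_split (P Q : ℕ → Prop) [DecidablePred P] (j0 J : ℕ) (h : ∀ j ≥ j0, P j ∨ Q j) :
    (J : ℝ) ≤ j0 + ((range J).filter P).card +
      ((range J).filter (fun j => j0 ≤ j ∧ ¬ P j)).card ∧
    ∀ j ∈ (range J).filter (fun j => j0 ≤ j ∧ ¬ P j), Q j := by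
  constructor
  · have hsub : range J ⊆ range j0 ∪ ((range J).filter P ∪
        (range J).filter (fun j => j0 ≤ j ∧ ¬ P j)) := by
      intro j hj
      rw [mem_union, mem_union, mem_filter, mem_filter, mem_range]
      by_cases h1 : j < j0
      · exact Or.inl h1
      · by_cases h2 : P j
        · exact Or.inr (Or.inl ⟨hj, h2⟩)
        · exact Or.inr (Or.inr ⟨hj, by omega, h2⟩)
    have h1 := (card_le_card hsub).trans ((card_union_le _ _).trans
      (Nat.add_le_add_left (card_union_le _ _) _))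
    rw [card_range, card_range] at h1
    have : (J : ℝ) ≤ ((j0 + (((range J).filter P).card +
      ((range J).filter (fun j => j0 ≤ j ∧ ¬ P j)).card) : ℕ) : ℝ) := by exact_mod_cast h1
    push_cast at this
    linarith
  · intro j hj
    rw [mem_filter] at hj
    exact (h j hj.2.1).resolve_left hj.2.2

open Classical in
/-- Gaps which avoid a sparse set and are not large. -/
theorem seq_avoid (hg0 : ∀ j, 0 ≤ g j) (hK : 0 < K)
    (havg : Tendsto (fun J : ℕ => (∑ j ∈ range J, g j) / J) atTop (𝓝 a))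
    (hF : ∃ᶠ J : ℕ in atTop, (((range J).filter (fun j => g j ∈ F)).card : ℝ) < μ * J)
    (hμ : μ + a / K < 1) : ∃ᶠ j in atTop, g j ∉ F ∧ g j ≤ K := by
  intro hcon
  obtain ⟨j0, hj0⟩ := eventually_atTop.1 hcon
  have hlim : Tendsto (fun J : ℕ => (j0 : ℝ) / J + μ + (∑ j ∈ range J, g j) / J / K) atTop
      (𝓝 (0 + μ + a / K)) :=
    ((tendsto_const_nhds.div_atTop tendsto_natCast_atTop_atTop).add tendsto_const_nhds).add
      (havg.div_const K)
  rw [zero_add] at hlim
  obtain ⟨J, hJF, hJ1, hJ0⟩ := (hF.and_eventually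
    ((hlim.eventually (gt_mem_nhds hμ)).and (eventually_gt_atTop 0))).exists
  have hJ0' : (0 : ℝ) < J := by exact_mod_cast hJ0
  obtain ⟨h1, h2⟩ := count_split (fun j => g j ∈ F) (fun j => K < g j) j0 J (by
    intro j hj
    have := hj0 j hj
    by_contra hc
    push Not at hc
    exact this ⟨hc.1, hc.2⟩)
  set T := (range J).filter (fun j => j0 ≤ j ∧ ¬ g j ∈ F) with hT
  have h3 : K * T.card ≤ ∑ j ∈ range J, g j := by
    calc K * T.card = ∑ _j ∈ T, K := by rw [sum_const, nsmul_eq_mul]; ring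
      _ ≤ ∑ j ∈ T, g j := sum_le_sum fun j hj => (h2 j hj).le
      _ ≤ ∑ j ∈ range J, g j := sum_le_sum_of_subset_of_nonneg (filter_subset _ _)
          (fun j _ _ => hg0 j)
  have h4 : (T.card : ℝ) ≤ (∑ j ∈ range J, g j) / K := by
    rw [le_div_iff₀ hK]; linarith
  have h5 : (J : ℝ) < j0 + μ * J + (∑ j ∈ range J, g j) / K := by linarith
  have h6 : (1 : ℝ) < (j0 : ℝ) / J + μ + (∑ j ∈ range J, g j) / J / K := by
    have : (j0 : ℝ) / J + μ + (∑ j ∈ range J, g j) / J / K =
      (j0 + μ * J + (∑ j ∈ range J, g j) / K) / J := by field_simp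
    rw [this, lt_div_iff₀ hJ0']
    linarith
  exact lt_asymm h6 hJ1

open Classical in
/-- Gaps smaller than the average. -/
theorem seq_low (hg0 : ∀ j, 0 ≤ g j) (hη : 0 < η)
    (havg : Tendsto (fun J : ℕ => (∑ j ∈ range J, g j) / J) atTop (𝓝 a))
    (hF : ∃ᶠ J : ℕ in atTop,
      (((range J).filter (fun j => g j ∈ Set.Icc (a - η) (a + η))).card : ℝ) < μ * J)
    (hμ : μ < 1 / 2) : ∃ᶠ j in atTop, g j < a - η := by
  intro hcon
  obtain ⟨j0, hj0⟩ := eventually_atTop.1 hcon
  have hlim : Tendsto (fun J : ℕ => (∑ j ∈ range J, g j) / J + (j0 : ℝ) * (a + η) / J) atTop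
      (𝓝 (a + 0)) :=
    havg.add (tendsto_const_nhds.div_atTop tendsto_natCast_atTop_atTop)
  rw [add_zero] at hlim
  have hlt : a < a + η * (1 - 2 * μ) := by nlinarith
  obtain ⟨J, hJF, hJ1, hJ0⟩ := (hF.and_eventually
    ((hlim.eventually (gt_mem_nhds hlt)).and (eventually_gt_atTop j0))).exists
  have hJ0' : (0 : ℝ) < J := by exact_mod_cast (Nat.zero_le j0).trans_lt hJ0
  obtain ⟨h1, h2⟩ := count_split (fun j => g j ∈ Set.Icc (a - η) (a + η))
    (fun j => a + η < g j) j0 J (by
    intro j hj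
    have := hj0 j hj
    by_contra hc
    push Not at hc this
    exact hc.1 ⟨this, hc.2⟩)
  set T := (range J).filter (fun j => j0 ≤ j ∧ ¬ g j ∈ Set.Icc (a - η) (a + η)) with hT
  have h3 : ∑ j ∈ Ico j0 J, ((a - η) + (if j ∈ T then 2 * η else 0)) ≤ ∑ j ∈ range J, g j := by
    calc _ ≤ ∑ j ∈ Ico j0 J, g j := by
          refine sum_le_sum fun j hj => ?_
          rw [mem_Ico] at hj
          split_ifs with hjT
          · have := h2 j hjT
            linarith
          · have := hj0 j hj.1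
            push Not at this
            linarith
      _ ≤ _ := by
          refine sum_le_sum_of_subset_of_nonneg ?_ (fun j _ _ => hg0 j)
          intro j hj
          rw [mem_Ico] at hj
          rw [mem_range]
          exact hj.2
  have h4 : ∑ j ∈ Ico j0 J, ((a - η) + (if j ∈ T then 2 * η else 0)) =
      (J - j0) * (a - η) + 2 * η * T.card := by
    rw [sum_add_distrib, sum_const, Nat.card_Ico, nsmul_eq_mul, Nat.cast_sub hJ0.le,
      ← sum_filter, sum_const, nsmul_eq_mul]
    have e : (Ico j0 J).filter (fun j => j ∈ T) = T := by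
      ext j
      rw [mem_filter, mem_Ico, hT, mem_filter, mem_range]
      tauto
    rw [e]
    ring
  rw [h4] at h3
  have h5 : (J : ℝ) - j0 - μ * J ≤ T.card := by linarith
  have h6 : ((J : ℝ) - j0) * (a - η) + 2 * η * ((J : ℝ) - j0 - μ * J) ≤ ∑ j ∈ range J, g j := by
    have : 2 * η * ((J : ℝ) - j0 - μ * J) ≤ 2 * η * T.card :=
      mul_le_mul_of_nonneg_left h5 (by linarith)
    linarith
  have h7 : (a + η * (1 - 2 * μ)) * J ≤ (∑ j ∈ range J, g j) + j0 * (a + η) := by linarith
  have h8 : a + η * (1 - 2 * μ) ≤ (∑ j ∈ range J, g j) / J + (j0 : ℝ) * (a + η) / J := by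
    rw [← add_div, le_div_iff₀ hJ0']
    exact h7
  linarith

open Classical in
/-- Gaps larger than the average. -/
theorem seq_high (hη : 0 < η)
    (havg : Tendsto (fun J : ℕ => (∑ j ∈ range J, g j) / J) atTop (𝓝 a))
    (hF : ∃ᶠ J : ℕ in atTop,
      (((range J).filter (fun j => g j ∈ Set.Icc (a - η) (a + η))).card : ℝ) < μ * J)
    (hμ : μ < 1 / 2) : ∃ᶠ j in atTop, a + η < g j := by
  intro hcon
  obtain ⟨j0, hj0⟩ := eventually_atTop.1 hcon
  set C0 : ℝ := ∑ j ∈ range j0, g j with hC0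
  have hlim : Tendsto (fun J : ℕ => (∑ j ∈ range J, g j) / J - (C0 - j0 * (a - η)) / J) atTop
      (𝓝 (a - 0)) :=
    havg.sub (tendsto_const_nhds.div_atTop tendsto_natCast_atTop_atTop)
  rw [sub_zero] at hlim
  have hlt : a - η * (1 - 2 * μ) < a := by nlinarith
  obtain ⟨J, hJF, hJ1, hJ0⟩ := (hF.and_eventually
    ((hlim.eventually (lt_mem_nhds hlt)).and (eventually_gt_atTop j0))).exists
  have hJ0' : (0 : ℝ) < J := by exact_mod_cast (Nat.zero_le j0).trans_lt hJ0
  obtain ⟨h1, h2⟩ := count_split (fun j => g j ∈ Set.Icc (a - η) (a + η))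
    (fun j => g j < a - η) j0 J (by
    intro j hj
    have := hj0 j hj
    by_contra hc
    push Not at hc this
    exact hc.1 ⟨hc.2, this⟩)
  set T := (range J).filter (fun j => j0 ≤ j ∧ ¬ g j ∈ Set.Icc (a - η) (a + η)) with hT
  have h3 : ∑ j ∈ Ico j0 J, g j ≤ ∑ j ∈ Ico j0 J, ((a + η) - (if j ∈ T then 2 * η else 0)) := by
    refine sum_le_sum fun j hj => ?_
    rw [mem_Ico] at hj
    split_ifs with hjT
    · have := h2 j hjT
      linarith
    · have := hj0 j hj.1
      push Not at this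
      linarith
  have h4 : ∑ j ∈ Ico j0 J, ((a + η) - (if j ∈ T then 2 * η else 0)) =
      (J - j0) * (a + η) - 2 * η * T.card := by
    rw [sum_sub_distrib, sum_const, Nat.card_Ico, nsmul_eq_mul, Nat.cast_sub hJ0.le,
      ← sum_filter, sum_const, nsmul_eq_mul]
    have e : (Ico j0 J).filter (fun j => j ∈ T) = T := by
      ext j
      rw [mem_filter, mem_Ico, hT, mem_filter, mem_range]
      tauto
    rw [e]
    ring
  rw [h4] at h3
  have h9 : ∑ j ∈ range J, g j = C0 + ∑ j ∈ Ico j0 J, g j := by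
    rw [hC0, sum_range_add_sum_Ico _ hJ0.le]
  have h5 : (J : ℝ) - j0 - μ * J ≤ T.card := by linarith
  have h6 : 2 * η * ((J : ℝ) - j0 - μ * J) ≤ 2 * η * T.card :=
    mul_le_mul_of_nonneg_left h5 (by linarith)
  have h7 : (∑ j ∈ range J, g j) ≤ (a - η * (1 - 2 * μ)) * J + (C0 - j0 * (a - η)) := by
    rw [h9]
    linarith
  have h8 : (∑ j ∈ range J, g j) / J - (C0 - j0 * (a - η)) / J ≤ a - η * (1 - 2 * μ) := by
    rw [← sub_div, div_le_iff₀ hJ0']
    linarith
  linarith

end Pool.Agent.Run7.h129.Mer
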