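import Mathlib
import Pool.Agent.Run7.h129.Mer.Seq

/-!
# The logarithmic gaps of a set of integers with logarithmic counting function
-/

set_option autoImplicit false

namespace Pool.Agent.Run7.h129.Mer

open Finset Filter Topology

/-- two consecutive elements of `E` -/
def Consec (E : ℕ → Prop) (p q : ℕ) : Prop :=
  E p ∧ E q ∧ p < q ∧ ∀ r, p < r → r < q → ¬ E r

/-- the logarithmic gap after the `j`-th element -/
noncomputable def gap (E : ℕ → Prop) (j : ℕ) : ℝ :=
  Real.log (((Nat.nth E (j + 1) : ℕ) : ℝ) / (Nat.nth E j : ℕ))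

/-- `E` has logarithmic density `κ` and consists of positive integers -/
structure LogDens (E : ℕ → Prop) [DecidablePred E] (κ : ℝ) : Prop where
  pos : 0 < κ
  ne : ¬ E 0
  lim : Tendsto (fun n : ℕ => (Nat.count E (n + 1) : ℝ) / Real.log n) atTop (𝓝 κ)

variable {E : ℕ → Prop} [DecidablePred E] {κ : ℝ}

lemma LogDens.count_atTop (h : LogDens E κ) :
    Tendsto (fun n : ℕ => Nat.count E (n + 1)) atTop atTop := by
  have h1 : Tendsto (fun n : ℕ => Real.log (n : ℝ)) atTop atTop :=
    Real.tendsto_log_atTop.comp tendsto_natCast_atTop_atTop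
  have h2 : Tendsto (fun n : ℕ => (Nat.count E (n + 1) : ℝ) / Real.log n * Real.log n) atTop atTop :=
    h.lim.pos_mul_atTop h.pos h1
  have h3 : Tendsto (fun n : ℕ => (Nat.count E (n + 1) : ℝ)) atTop atTop := by
    refine h2.congr' ?_
    filter_upwards [h1.eventually_gt_atTop 0] with n hn
    field_simp
  exact tendsto_natCast_atTop_iff.1 h3

lemma LogDens.infinite (h : LogDens E κ) : (Set.ofPred E).Infinite := by
  intro hfin
  obtain ⟨n, hn⟩ := (h.count_atTop.eventually_gt_atTop hfin.toFinset.card).exists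
  have h1 : Nat.count E (n + 1) ≤ hfin.toFinset.card := by
    rw [Nat.count_eq_card_filter_range]
    refine card_le_card fun p hp => ?_
    rw [mem_filter] at hp
    rw [Set.Finite.mem_toFinset]
    exact hp.2
  omega

lemma LogDens.mono (h : LogDens E κ) : StrictMono (Nat.nth E) := Nat.nth_strictMono h.infinite

lemma LogDens.mem (h : LogDens E κ) (j : ℕ) : E (Nat.nth E j) := Nat.nth_mem_of_infinite h.infinite j

lemma LogDens.pos' (h : LogDens E κ) (j : ℕ) : 0 < Nat.nth E j := by
  rcases Nat.eq_zero_or_pos (Nat.nth E j) with h1 | h1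
  · have := h.mem j
    rw [h1] at this
    exact absurd this h.ne
  · exact h1

lemma LogDens.tendsto (h : LogDens E κ) : Tendsto (Nat.nth E) atTop atTop := h.mono.tendsto_atTop

lemma LogDens.consec (h : LogDens E κ) (j : ℕ) : Consec E (Nat.nth E j) (Nat.nth E (j + 1)) := by
  refine ⟨h.mem j, h.mem (j + 1), h.mono (Nat.lt_succ_self j), fun r hr1 hr2 hr => ?_⟩
  have h1 := Nat.nth_count hr
  have h2 : Nat.nth E j < Nat.nth E (Nat.count E r) := by rw [h1]; exact hr1
  have h3 : Nat.nth E (Nat.count E r) < Nat.nth E (j + 1) := by rw [h1]; exact hr2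
  rw [h.mono.lt_iff_lt] at h2 h3
  omega

lemma LogDens.gap_pos (h : LogDens E κ) (j : ℕ) : 0 < gap E j := by
  unfold gap
  refine Real.log_pos ?_
  have h1 : (0 : ℝ) < (Nat.nth E j : ℕ) := by exact_mod_cast h.pos' j
  rw [one_lt_div h1]
  exact_mod_cast h.mono (Nat.lt_succ_self j)

lemma LogDens.sum_gap (h : LogDens E κ) (J : ℕ) :
    ∑ j ∈ range J, gap E j = Real.log (Nat.nth E J : ℕ) - Real.log (Nat.nth E 0 : ℕ) := by
  induction J with
  | zero => simp
  | succ J ih =>
    rw [sum_range_succ, ih]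
    unfold gap
    have h1 : ((Nat.nth E J : ℕ) : ℝ) ≠ 0 := by
      have := h.pos' J
      positivity
    have h2 : ((Nat.nth E (J + 1) : ℕ) : ℝ) ≠ 0 := by
      have := h.pos' (J + 1)
      positivity
    rw [Real.log_div h2 h1]
    ring

lemma LogDens.avg (h : LogDens E κ) :
    Tendsto (fun J : ℕ => (∑ j ∈ range J, gap E j) / J) atTop (𝓝 κ⁻¹) := by
  have h1 := h.lim.comp h.tendsto
  have h2 : Tendsto (fun J : ℕ => ((J : ℝ) + 1) / Real.log (Nat.nth E J : ℕ)) atTop (𝓝 κ) := by
    refine h1.congr fun J => ?_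
    simp only [Function.comp]
    rw [Nat.count_nth_succ_of_infinite h.infinite]
    push_cast
    rfl
  have h3 : Tendsto (fun J : ℕ => Real.log (Nat.nth E J : ℕ) / ((J : ℝ) + 1)) atTop (𝓝 κ⁻¹) := by
    refine (h2.inv₀ h.pos.ne').congr fun J => ?_
    rw [inv_div]
  have h4 : Tendsto (fun J : ℕ => ((J : ℝ) + 1) / J) atTop (𝓝 1) := by
    have h5 : Tendsto (fun J : ℕ => 1 + 1 / (J : ℝ)) atTop (𝓝 (1 + 0)) :=
      tendsto_const_nhds.add (tendsto_const_nhds.div_atTop tendsto_natCast_atTop_atTop)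
    rw [add_zero] at h5
    refine h5.congr' ?_
    filter_upwards [eventually_gt_atTop 0] with J hJ
    have : (0 : ℝ) < J := by exact_mod_cast hJ
    field_simp
  have h6 : Tendsto (fun J : ℕ => Real.log (Nat.nth E 0 : ℕ) / (J : ℝ)) atTop (𝓝 0) :=
    tendsto_const_nhds.div_atTop tendsto_natCast_atTop_atTop
  have h7 := (h3.mul h4).sub h6
  rw [mul_one, sub_zero] at h7
  refine h7.congr' ?_
  filter_upwards [eventually_gt_atTop 0] with J hJ
  have hJ0 : (0 : ℝ) < J := by exact_mod_cast hJ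
  rw [h.sum_gap]
  field_simp

/-- the elements up to `n` are the first `count` ones -/
lemma LogDens.le_of_lt_count (_h : LogDens E κ) {n j : ℕ} (hj : j < Nat.count E (n + 1)) :
    Nat.nth E j ≤ n := by
  have := Nat.nth_lt_of_lt_count hj
  omega

/-- transfer of a frequent bound from `n` to the number `J` of elements up to `n` -/
lemma LogDens.freq (h : LogDens E κ) {X : ℕ → ℝ} {lam μ : ℝ} {F : Set ℝ}
    [DecidablePred (fun j => gap E j ∈ F)]
    (hX : ∀ n J : ℕ, (∀ j < J, Nat.nth E j ≤ n) →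
      (((range J).filter (fun j => gap E j ∈ F)).card : ℝ) ≤ X n)
    (hfr : ∃ᶠ n : ℕ in atTop, X n < lam * Real.log n) (hμ : lam < μ * κ) (hμ0 : 0 < μ) :
    ∃ᶠ J : ℕ in atTop, (((range J).filter (fun j => gap E j ∈ F)).card : ℝ) < μ * J := by
  have h1 : lam / μ < κ := by rw [div_lt_iff₀ hμ0]; linarith
  have h2 := h.lim.eventually (lt_mem_nhds h1)
  have hlog : Tendsto (fun n : ℕ => Real.log (n : ℝ)) atTop atTop :=
    Real.tendsto_log_atTop.comp tendsto_natCast_atTop_atTop
  have h3 : ∃ᶠ n : ℕ in atTop, (((range (Nat.count E (n + 1))).filter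
      (fun j => gap E j ∈ F)).card : ℝ) < μ * (Nat.count E (n + 1) : ℕ) := by
    refine (hfr.and_eventually (h2.and (hlog.eventually_gt_atTop 0))).mono ?_
    rintro n ⟨hn1, hn2, hn3⟩
    have h4 := hX n (Nat.count E (n + 1)) (fun j hj => h.le_of_lt_count hj)
    refine lt_of_le_of_lt h4 (hn1.trans ?_)
    rw [div_lt_div_iff₀ hμ0 hn3] at hn2
    linarith
  exact h.count_atTop.frequently h3

end Pool.Agent.Run7.h129.Mer
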