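import Mathlib
import Pool.Agent.Run7.h129.Mer.Gaps

/-!
# Limit points of the logarithmic gaps
-/

set_option autoImplicit false

namespace Pool.Agent.Run7.h129.Mer

open Finset Filter Topology MeasureTheory Metric

/-- the limit points of the logarithms of the ratios of consecutive elements of `E` -/
def LimSet (E : ℕ → Prop) : Set ℝ :=
  {t | ∀ ε : ℝ, 0 < ε → ∃ᶠ p : ℕ in atTop, ∃ q : ℕ, Consec E p q ∧
    |Real.log ((q : ℝ) / p) - t| < ε}

lemma isClosed_LimSet (E : ℕ → Prop) : IsClosed (LimSet E) := by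
  refine isClosed_of_closure_subset fun t ht ε hε => ?_
  rw [Metric.mem_closure_iff] at ht
  obtain ⟨s, hs, hst⟩ := ht (ε / 2) (by positivity)
  refine (hs (ε / 2) (by positivity)).mono ?_
  rintro p ⟨q, h1, h2⟩
  refine ⟨q, h1, ?_⟩
  rw [Real.dist_eq, abs_sub_comm] at hst
  calc |Real.log ((q : ℝ) / p) - t| = |(Real.log ((q : ℝ) / p) - s) + (s - t)| := by ring_nf
    _ ≤ |Real.log ((q : ℝ) / p) - s| + |s - t| := abs_add_le _ _
    _ < ε / 2 + ε / 2 := add_lt_add h2 hst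
    _ = ε := by ring

variable {E : ℕ → Prop} [DecidablePred E] {κ : ℝ}

lemma LogDens.mem_LimSet (h : LogDens E κ) {t : ℝ}
    (ht : ∀ ε : ℝ, 0 < ε → ∃ᶠ j : ℕ in atTop, |gap E j - t| < ε) : t ∈ LimSet E := by
  intro ε hε
  refine h.tendsto.frequently ((ht ε hε).mono fun j hj => ⟨Nat.nth E (j + 1), h.consec j, hj⟩)

/-- the `i`-th interval of the grid with `m` intervals on `(0, L]` -/
def grid (L : ℝ) (m i : ℕ) : Set ℝ := Set.Ioc (i * (L / m)) ((i + 1) * (L / m))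

lemma mem_grid {L : ℝ} (hL : 0 < L) {m : ℕ} (hm : 0 < m) {x : ℝ} (hx0 : 0 < x) (hxL : x ≤ L) :
    ∃ i < m, x ∈ grid L m i := by
  have hm0 : (0 : ℝ) < m := by exact_mod_cast hm
  have hd : 0 < L / m := by positivity
  have h1 : 0 < x / (L / m) := by positivity
  have h2 : 0 < ⌈x / (L / m)⌉₊ := Nat.ceil_pos.2 h1
  have h3 : ⌈x / (L / m)⌉₊ ≤ m := by
    rw [Nat.ceil_le, div_le_iff₀ hd]
    have : (m : ℝ) * (L / m) = L := by field_simp
    rw [this]; exact hxL
  refine ⟨⌈x / (L / m)⌉₊ - 1, by omega, ?_, ?_⟩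
  · have h4 : ⌈x / (L / m)⌉₊ - 1 < ⌈x / (L / m)⌉₊ := by omega
    have h5 := Nat.lt_ceil.1 h4
    rwa [lt_div_iff₀ hd] at h5
  · have h4 := Nat.le_ceil (x / (L / m))
    rw [div_le_iff₀ hd] at h4
    have h5 : ((⌈x / (L / m)⌉₊ - 1 : ℕ) : ℝ) + 1 = ⌈x / (L / m)⌉₊ := by
      rw [Nat.cast_sub h2]; push_cast; ring
    rw [h5]; exact h4

lemma grid_volume {L : ℝ} (hL : 0 < L) {m : ℕ} (hm : 0 < m) (T : Finset ℕ) {O : Set ℝ}
    (hT : ∀ i ∈ T, grid L m i ⊆ O) :
    ENNReal.ofReal (∑ _i ∈ T, L / (m : ℝ)) ≤ volume O := by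
  have hm0 : (0 : ℝ) < m := by exact_mod_cast hm
  have hd : 0 < L / m := by positivity
  have h1 : volume (⋃ i ∈ T, grid L m i) = ∑ i ∈ T, volume (grid L m i) := by
    refine measure_biUnion_finset ?_ (fun i _ => measurableSet_Ioc)
    intro i _ j _ hij
    rw [Function.onFun, Set.disjoint_left]
    rintro x ⟨hx1, hx2⟩ ⟨hx3, hx4⟩
    apply hij
    have h2 : (i : ℝ) < j + 1 := lt_of_mul_lt_mul_right (hx1.trans_le hx4) hd.le
    have h3 : (j : ℝ) < i + 1 := lt_of_mul_lt_mul_right (hx3.trans_le hx2) hd.le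
    have h4 : i < j + 1 := by exact_mod_cast h2
    have h5 : j < i + 1 := by exact_mod_cast h3
    omega
  have h2 : ∀ i, volume (grid L m i) = ENNReal.ofReal (L / m) := by
    intro i
    unfold grid
    rw [Real.volume_Ioc]
    congr 1
    ring
  calc ENNReal.ofReal (∑ _i ∈ T, L / (m : ℝ)) = ∑ _i ∈ T, ENNReal.ofReal (L / m) :=
        ENNReal.ofReal_sum_of_nonneg fun _ _ => hd.le
    _ = volume (⋃ i ∈ T, grid L m i) := by rw [h1]; exact sum_congr rfl fun i _ => (h2 i).symm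
    _ ≤ volume O := measure_mono (Set.iUnion₂_subset hT)

/-- If infinitely many gaps at most `L` avoid every union of grid intervals of total length less
than `c`, then the set of the limit points in `[0, L]` has measure at least `c`. -/
theorem LogDens.volume_LimSet (h : LogDens E κ) {L c : ℝ} (hL : 0 < L)
    (hav : ∀ m : ℕ, 0 < m → ∀ T : Finset ℕ, T ⊆ range m → ∑ _i ∈ T, L / (m : ℝ) < c →
      ∃ᶠ j in atTop, gap E j ∉ (⋃ i ∈ T, grid L m i) ∧ gap E j ≤ L) :
    ENNReal.ofReal c ≤ volume (LimSet E ∩ Set.Icc 0 L) := by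
  classical
  by_contra hcon
  push Not at hcon
  set S := LimSet E ∩ Set.Icc 0 L with hS
  have hScomp : IsCompact S := isCompact_Icc.inter_left (isClosed_LimSet E)
  obtain ⟨O, hSO, hO, hOv⟩ := Set.exists_isOpen_lt_of_lt S _ hcon
  obtain ⟨δ, hδ, hth⟩ := hScomp.exists_thickening_subset_open hO hSO
  obtain ⟨m, hm⟩ := exists_nat_gt (2 * L / δ)
  have hm0 : (0 : ℝ) < m := lt_of_le_of_lt (by positivity) hm
  have hm0' : 0 < m := by exact_mod_cast hm0
  have hd : 0 < L / m := by positivity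
  have hdδ : L / m < δ / 2 := by
    rw [div_lt_iff₀ hδ] at hm
    rw [div_lt_iff₀ hm0]
    linarith
  set T := (range m).filter (fun i => grid L m i ⊆ O) with hT
  have hTsum : ∑ _i ∈ T, L / (m : ℝ) < c := by
    have h1 := grid_volume (O := O) hL hm0' T (fun i hi => (mem_filter.1 hi).2)
    have h2 := lt_of_le_of_lt h1 hOv
    by_contra h3
    push Not at h3
    exact absurd h2 (not_lt.2 (ENNReal.ofReal_le_ofReal h3))
  have hfr := hav m hm0' T (filter_subset _ _) hTsum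
  set A : Set ℕ := {j | gap E j ∉ (⋃ i ∈ T, grid L m i) ∧ gap E j ≤ L} with hA
  have hne : (atTop ⊓ 𝓟 A : Filter ℕ).NeBot := frequently_mem_iff_neBot.1 hfr
  obtain ⟨t, ht, hcl⟩ := (isCompact_Icc (a := (0 : ℝ)) (b := L)).exists_mapClusterPt
    (f := atTop ⊓ 𝓟 A) (u := gap E) (by
      rw [le_principal_iff, Filter.mem_map]
      refine Filter.mem_inf_of_right ?_
      rw [mem_principal]
      intro j hj
      exact ⟨(h.gap_pos j).le, hj.2⟩)
  have hfrA : ∀ ε : ℝ, 0 < ε → ∃ᶠ j in atTop, |gap E j - t| < ε ∧ j ∈ A := by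
    intro ε hε
    have h1 := mapClusterPt_iff_frequently.1 hcl (ball t ε) (ball_mem_nhds t hε)
    rw [frequently_inf_principal] at h1
    refine h1.mono fun j hj => ⟨?_, hj.1⟩
    have := hj.2
    rwa [mem_ball, Real.dist_eq] at this
  have htS : t ∈ S := ⟨h.mem_LimSet fun ε hε => (hfrA ε hε).mono fun j hj => hj.1, ht⟩
  obtain ⟨j, hj1, hj2⟩ := (hfrA (δ / 2) (by positivity)).exists
  obtain ⟨i, hi, hgi⟩ := mem_grid hL hm0' (h.gap_pos j) hj2.2
  apply hj2.1
  rw [Set.mem_iUnion₂]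
  refine ⟨i, ?_, hgi⟩
  rw [hT, mem_filter, mem_range]
  refine ⟨hi, fun x hx => hth ?_⟩
  rw [mem_thickening_iff]
  refine ⟨t, htS, ?_⟩
  rw [Real.dist_eq]
  have h1 : |x - gap E j| ≤ L / m := by
    obtain ⟨a1, a2⟩ := hx
    obtain ⟨b1, b2⟩ := hgi
    have e : ((i : ℝ) + 1) * (L / m) = i * (L / m) + L / m := by ring
    rw [e] at a2 b2
    rw [abs_le]
    constructor <;> linarith
  calc |x - t| = |(x - gap E j) + (gap E j - t)| := by ring_nf
    _ ≤ |x - gap E j| + |gap E j - t| := abs_add_le _ _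
    _ < δ / 2 + δ / 2 := by linarith
    _ = δ := by ring

end Pool.Agent.Run7.h129.Mer
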