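import Mathlib
import Pool.Agent.W66.ST
import Pool.Agent.Run7.h129.Mer.AE
import Pool.Agent.Run7.h129.Mer.Lim

/-!
# The ratios of consecutive exponents for almost every amplitude
-/

set_option autoImplicit false

namespace Pool.Agent.Run7.h129.Mer

open Finset Filter Topology MeasureTheory
open Pool.Agent.H305R2 (roughPart)

/-- the exponents of the amplitude `β` -/
def Ex (β : ℝ) (p : ℕ) : Prop := p.Prime ∧ (roughPart p (NB 2 β p)).Prime

noncomputable instance (β : ℝ) : DecidablePred (Ex β) := fun _ => Classical.propDecidable _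

lemma ee_of_Ex {β : ℝ} {p : ℕ} (h : Ex β p) : ee p β = 1 := by
  unfold ee XX
  rw [if_pos h.2]

/-- the constant of the law, `e ^ γ / log 2` -/
noncomputable def kap : ℝ := Real.exp Real.eulerMascheroniConstant / Real.log 2

lemma kap_pos : 0 < kap := div_pos (Real.exp_pos _) (Real.log_pos one_lt_two)

lemma Xf_ge {β : ℝ} {κ : ℝ} (h : LogDens (Ex β) κ) {u v : ℝ} (hv : v ≤ Real.log 2) (n J : ℕ)
    (hJ : ∀ j < J, Nat.nth (Ex β) j ≤ n) [DecidablePred fun j => gap (Ex β) j ∈ Set.Ioc u v] :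
    (((range J).filter (fun j => gap (Ex β) j ∈ Set.Ioc u v)).card : ℝ) ≤ Xf u v n β := by
  classical
  set T := (range J).filter (fun j => gap (Ex β) j ∈ Set.Ioc u v) with hT
  set e := Nat.nth (Ex β) with he
  have hinj : Set.InjOn e T := h.mono.injective.injOn
  have hsub : T.image e ⊆ PN n := by
    intro p hp
    rw [mem_image] at hp
    obtain ⟨j, hj, rfl⟩ := hp
    rw [hT, mem_filter, mem_range] at hj
    rw [mem_PN]
    exact ⟨hJ j hj.1, (h.mem j).1⟩
  have hin : ∀ p, 0 ≤ ∑ h ∈ (Icc 1 p).filter (fun h => (p + h).Prime ∧ inI u v p h),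
      ee p β * ee (p + h) β := fun p =>
    sum_nonneg fun _ _ => mul_nonneg (ee_nonneg _ _) (ee_nonneg _ _)
  have h1 : ∑ p ∈ T.image e, ∑ h ∈ (Icc 1 p).filter (fun h => (p + h).Prime ∧ inI u v p h),
      ee p β * ee (p + h) β ≤ Xf u v n β := by
    unfold Xf
    convert sum_le_sum_of_subset_of_nonneg hsub (fun p _ _ => hin p)
  rw [sum_image hinj] at h1
  refine le_trans ?_ h1
  have h2 : ∀ j ∈ T, (1 : ℝ) ≤ ∑ h ∈ (Icc 1 (e j)).filter
      (fun h => (e j + h).Prime ∧ inI u v (e j) h), ee (e j) β * ee (e j + h) β := by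
    intro j hj
    rw [hT, mem_filter, mem_range] at hj
    have hlt : e j < e (j + 1) := h.mono (Nat.lt_succ_self j)
    have hp0 : (0 : ℝ) < (e j : ℕ) := by exact_mod_cast h.pos' j
    set d := e (j + 1) - e j with hd
    have hsum : e j + d = e (j + 1) := by omega
    have hgap : gap (Ex β) j = Real.log (((e j + d : ℕ) : ℝ) / (e j : ℕ)) := by
      unfold gap
      rw [hsum]
    have hd2 : d ≤ e j := by
      have h3 := hj.2.2.trans hv
      rw [hgap] at h3
      have h4 : ((e j + d : ℕ) : ℝ) / (e j : ℕ) ≤ 2 := by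
        have h40 : (0 : ℝ) < ((e j + d : ℕ) : ℝ) / (e j : ℕ) := by
          refine div_pos ?_ hp0
          rw [hsum]
          exact_mod_cast h.pos' (j + 1)
        rwa [Real.log_le_log_iff h40 (by norm_num)] at h3
      rw [div_le_iff₀ hp0] at h4
      have h5 : e j + d ≤ 2 * e j := by exact_mod_cast h4
      omega
    have hmem : d ∈ (Icc 1 (e j)).filter (fun h => (e j + h).Prime ∧ inI u v (e j) h) := by
      rw [mem_filter, mem_Icc]
      refine ⟨⟨by omega, hd2⟩, ?_, ?_⟩
      · rw [hsum]; exact (h.mem (j + 1)).1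
      · unfold inI
        rw [← hgap]
        exact hj.2
    have h6 := single_le_sum (f := fun h => ee (e j) β * ee (e j + h) β)
      (fun _ _ => mul_nonneg (ee_nonneg _ _) (ee_nonneg _ _)) hmem
    refine le_trans (le_of_eq ?_) h6
    show (1 : ℝ) = ee (e j) β * ee (e j + d) β
    rw [hsum, ee_of_Ex (h.mem j), ee_of_Ex (h.mem (j + 1)), mul_one]
  calc (T.card : ℝ) = ∑ _j ∈ T, (1 : ℝ) := by rw [sum_const, nsmul_eq_mul, mul_one]
    _ ≤ _ := sum_le_sum h2

/-- the law, as logarithmic density -/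
lemma ae_dens : ∀ᵐ β : ℝ, 0 < β → LogDens (Ex β) kap := by
  have h := Pool.Agent.W66S.law_base (b := 2) le_rfl
  filter_upwards [h] with β hβ hβ0
  have h1 := hβ hβ0
  refine ⟨kap_pos, fun h0 => Nat.not_prime_zero h0.1, ?_⟩
  simp only [Nat.cast_ofNat] at h1
  refine h1.congr fun n => ?_
  congr 1
  rw [Nat.count_eq_card_filter_range]
  norm_cast
  unfold Pool.Agent.W66S.cnt
  refine congrArg Finset.card ?_
  refine Finset.filter_congr fun p _ => ?_
  unfold Ex NB
  rfl

/-- **Part one.** The logarithms of the ratios of consecutive exponents have, for almost every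
amplitude, a set of limit points of measure at least `c`. -/
theorem part_one : ∃ c : ℝ, 0 < c ∧ ∀ᵐ β : ℝ, 0 < β →
    ENNReal.ofReal c ≤ volume (LimSet (Ex β) ∩ Set.Icc 0 (Real.log 2)) := by
  classical
  obtain ⟨C0, hC0, hae⟩ := ae_freq
  have hl2 : 0 < Real.log 2 := Real.log_pos one_lt_two
  have hγ : 0 < Real.eulerMascheroniConstant := by
    have := Real.one_half_lt_eulerMascheroniConstant
    linarith
  set ρ : ℝ := Real.exp (-Real.eulerMascheroniConstant) with hρ
  have hρ1 : ρ < 1 := by rw [hρ, Real.exp_lt_one_iff]; linarith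
  have hρ0 : 0 < ρ := Real.exp_pos _
  have hkρ : kap⁻¹ / Real.log 2 = ρ := by
    unfold kap
    rw [hρ, Real.exp_neg, inv_div]
    field_simp
  set c : ℝ := kap * (1 - ρ) / C0 with hc
  have hc0 : 0 < c := by
    have := kap_pos
    have : 0 < 1 - ρ := by linarith
    positivity
  refine ⟨c, hc0, ?_⟩
  -- all grids at once
  have hall : ∀ᵐ β : ℝ, ∀ (m : ℕ) (T : Finset ℕ), 0 < m → T ⊆ range m →
      ∑ _i ∈ T, Real.log 2 / (m : ℝ) < c → 0 < β → ∃ᶠ n : ℕ in atTop,
      ∑ i ∈ T, Xf (i * (Real.log 2 / m)) ((i + 1) * (Real.log 2 / m)) n β <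
        ((C0 * ∑ _i ∈ T, Real.log 2 / (m : ℝ)) + kap * (1 - ρ)) / 2 * Real.log n := by
    rw [ae_all_iff]
    intro m
    rw [ae_all_iff]
    intro T
    by_cases hm : 0 < m
    swap
    · exact Eventually.of_forall fun β h1 => absurd h1 hm
    by_cases hsum : ∑ _i ∈ T, Real.log 2 / (m : ℝ) < c
    swap
    · exact Eventually.of_forall fun β _ _ h1 => absurd h1 hsum
    have hm0 : (0 : ℝ) < m := by exact_mod_cast hm
    have hd : 0 < Real.log 2 / m := by positivity
    have hlt : C0 * ∑ _i ∈ T, Real.log 2 / (m : ℝ) < kap * (1 - ρ) := by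
      rw [hc, lt_div_iff₀ hC0] at hsum
      linarith
    have h1 := hae ℕ T (fun i => i * (Real.log 2 / m)) (fun i => (i + 1) * (Real.log 2 / m))
      (fun i _ => ⟨by positivity, by nlinarith⟩)
      (((C0 * ∑ _i ∈ T, Real.log 2 / (m : ℝ)) + kap * (1 - ρ)) / 2) (by
        have e : ∑ i ∈ T, (((i : ℝ) + 1) * (Real.log 2 / m) - i * (Real.log 2 / m)) =
            ∑ _i ∈ T, Real.log 2 / (m : ℝ) := sum_congr rfl fun i _ => by ring
        rw [e]
        linarith)
    filter_upwards [h1] with β hβ _ _ _ hβ0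
    exact hβ hβ0
  filter_upwards [hall, ae_dens] with β hβ hdens hβ0
  have hd := hdens hβ0
  refine hd.volume_LimSet hl2 fun m hm T hT hsum => ?_
  have hm0 : (0 : ℝ) < m := by exact_mod_cast hm
  have hdm : 0 < Real.log 2 / m := by positivity
  have hfr := hβ m T hm hT hsum hβ0
  set lam : ℝ := ((C0 * ∑ _i ∈ T, Real.log 2 / (m : ℝ)) + kap * (1 - ρ)) / 2 with hlam
  have hlt : C0 * ∑ _i ∈ T, Real.log 2 / (m : ℝ) < kap * (1 - ρ) := by
    rw [hc, lt_div_iff₀ hC0] at hsum
    linarith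
  have hσ0 : 0 ≤ ∑ _i ∈ T, Real.log 2 / (m : ℝ) := sum_nonneg fun _ _ => hdm.le
  have hlam1 : lam < kap * (1 - ρ) := by rw [hlam]; linarith
  have hk := kap_pos
  have hk1 : 0 < kap * (1 - ρ) := mul_pos hk (by linarith)
  have hlam0 : 0 < lam := by rw [hlam]; nlinarith
  set μ : ℝ := (lam / kap + (1 - ρ)) / 2 with hμ
  have hμ1 : lam / kap < 1 - ρ := by rw [div_lt_iff₀ hk]; linarith
  have hμlt : lam < μ * kap := by
    rw [hμ]
    have : lam / kap * kap = lam := by field_simp
    nlinarith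
  have hμ0 : 0 < μ := by
    rw [hμ]
    have : 0 < lam / kap := by positivity
    linarith
  have hmain := hd.freq (F := ⋃ i ∈ T, grid (Real.log 2) m i)
    (X := fun n => ∑ i ∈ T, Xf (i * (Real.log 2 / m)) ((i + 1) * (Real.log 2 / m)) n β)
    (lam := lam) (μ := μ) (by
      intro n J hJ
      have h1 : (range J).filter (fun j => gap (Ex β) j ∈ ⋃ i ∈ T, grid (Real.log 2) m i) ⊆
          T.biUnion (fun i => (range J).filter (fun j => gap (Ex β) j ∈
            Set.Ioc ((i : ℝ) * (Real.log 2 / m)) (((i : ℝ) + 1) * (Real.log 2 / m)))) := by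
        intro j hj
        rw [mem_filter, Set.mem_iUnion₂] at hj
        obtain ⟨hj1, i, hi, hj2⟩ := hj
        rw [mem_biUnion]
        exact ⟨i, hi, mem_filter.2 ⟨hj1, hj2⟩⟩
      have h2 := (card_le_card h1).trans card_biUnion_le
      have h3 : (((range J).filter
          (fun j => gap (Ex β) j ∈ ⋃ i ∈ T, grid (Real.log 2) m i)).card : ℝ) ≤
          ∑ i ∈ T, (((range J).filter (fun j => gap (Ex β) j ∈
            Set.Ioc ((i : ℝ) * (Real.log 2 / m)) (((i : ℝ) + 1) * (Real.log 2 / m)))).card : ℝ) := by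
        exact_mod_cast h2
      refine h3.trans (sum_le_sum fun i hi => ?_)
      refine Xf_ge hd ?_ n J hJ
      have h4 := mem_range.1 (hT hi)
      have h5 : ((i : ℝ) + 1) ≤ m := by exact_mod_cast h4
      calc ((i : ℝ) + 1) * (Real.log 2 / m) ≤ m * (Real.log 2 / m) :=
            mul_le_mul_of_nonneg_right h5 hdm.le
        _ = Real.log 2 := by field_simp)
    hfr hμlt hμ0
  exact seq_avoid (a := kap⁻¹) (μ := μ) (fun j => (hd.gap_pos j).le) hl2 hd.avg hmain (by
    rw [hkρ, hμ]
    linarith)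

/-- **Part two.** The ratios of consecutive exponents are infinitely often smaller, and infinitely
often larger, than the average ratio by a fixed amount. -/
theorem part_two : ∃ η : ℝ, 0 < η ∧ ∀ᵐ β : ℝ, 0 < β → LogDens (Ex β) kap ∧
    (∃ᶠ j in atTop, gap (Ex β) j < kap⁻¹ - η) ∧ (∃ᶠ j in atTop, kap⁻¹ + η < gap (Ex β) j) := by
  classical
  obtain ⟨C0, hC0, hae⟩ := ae_freq
  have hk := kap_pos
  have hl2 : 0 < Real.log 2 := Real.log_pos one_lt_two
  have hγ : 0 < Real.eulerMascheroniConstant := by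
    have := Real.one_half_lt_eulerMascheroniConstant
    linarith
  have ha0 : 0 < kap⁻¹ := by positivity
  have ha2 : kap⁻¹ < Real.log 2 := by
    unfold kap
    rw [inv_div, div_lt_iff₀ (Real.exp_pos _)]
    have : 1 < Real.exp Real.eulerMascheroniConstant := Real.one_lt_exp_iff.2 hγ
    nlinarith
  set η : ℝ := min (kap / (24 * C0)) (min (kap⁻¹ / 2) (Real.log 2 - kap⁻¹)) with hη
  have hη0 : 0 < η := by
    rw [hη, lt_min_iff, lt_min_iff]
    exact ⟨by positivity, by positivity, by linarith⟩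
  have hη1 : η ≤ kap / (24 * C0) := min_le_left _ _
  have hη2 : η ≤ kap⁻¹ / 2 := (min_le_right _ _).trans (min_le_left _ _)
  have hη3 : η ≤ Real.log 2 - kap⁻¹ := (min_le_right _ _).trans (min_le_right _ _)
  refine ⟨η, hη0, ?_⟩
  have h1 := hae Unit {()} (fun _ => kap⁻¹ - 2 * η) (fun _ => kap⁻¹ + η)
    (fun i _ => ⟨by linarith, by linarith⟩) (kap / 4) (by
      rw [sum_singleton]
      have : C0 * η ≤ kap / 24 := by
        rw [le_div_iff₀ (by positivity)] at hη1
        linarith
      nlinarith)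
  filter_upwards [h1, ae_dens] with β hβ hdens hβ0
  have hd := hdens hβ0
  have hfr := hβ hβ0
  simp only [sum_singleton] at hfr
  have hmain := hd.freq (F := Set.Icc (kap⁻¹ - η) (kap⁻¹ + η))
    (X := fun n => Xf (kap⁻¹ - 2 * η) (kap⁻¹ + η) n β) (lam := kap / 4) (μ := 3 / 8) (by
      intro n J hJ
      refine le_trans ?_ (Xf_ge hd (by linarith) n J hJ)
      have h2 : (range J).filter (fun j => gap (Ex β) j ∈ Set.Icc (kap⁻¹ - η) (kap⁻¹ + η)) ⊆
          (range J).filter (fun j => gap (Ex β) j ∈ Set.Ioc (kap⁻¹ - 2 * η) (kap⁻¹ + η)) := by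
        intro j hj
        rw [mem_filter] at hj ⊢
        exact ⟨hj.1, by linarith [hj.2.1], hj.2.2⟩
      exact_mod_cast card_le_card h2)
    hfr (by linarith) (by norm_num)
  refine ⟨hd, ?_, ?_⟩
  · exact seq_low (fun j => (hd.gap_pos j).le) hη0 hd.avg hmain (by norm_num)
  · exact seq_high hη0 hd.avg hmain (by norm_num)

end Pool.Agent.Run7.h129.Mer
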